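import Mathlib

set_option autoImplicit false

namespace FourBody

open Finset

/-- `q` is a planar central configuration of four bodies with masses `m` (Newtonian potential):
the four bodies are at distinct points and, for some real number `lam`, the attraction of the
other bodies on each body equals `lam` times its position relative to the centre of mass. -/
def IsCC (m : Fin 4 → ℝ) (q : Fin 4 → ℂ) : Prop :=
  Function.Injective q ∧ ∃ lam : ℝ, ∀ i,
    ∑ j ∈ univ.erase i, (m j : ℂ) * (q j - q i) / ((‖q j - q i‖ ^ 3 : ℝ) : ℂ)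
      = (lam : ℂ) * (q i - (∑ j, (m j : ℂ) * q j) / ((∑ j, m j : ℝ) : ℂ))

/-- `q'` arises from `q` by a translation, a rotation and a scaling (no reflection). -/
def Similar (q q' : Fin 4 → ℂ) : Prop := ∃ a b : ℂ, a ≠ 0 ∧ ∀ k, q' k = a * q k + b

theorem similar_refl (q : Fin 4 → ℂ) : Similar q q := ⟨1, 0, one_ne_zero, fun k => by ring⟩

theorem similar_symm {q q' : Fin 4 → ℂ} (h : Similar q q') : Similar q' q := by
  obtain ⟨a, b, ha, h⟩ := h
  refine ⟨a⁻¹, -(a⁻¹ * b), inv_ne_zero ha, fun k => ?_⟩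
  rw [h k]; field_simp; ring

theorem similar_trans {q q' q'' : Fin 4 → ℂ} (h : Similar q q') (h' : Similar q' q'') :
    Similar q q'' := by
  obtain ⟨a, b, ha, h⟩ := h
  obtain ⟨a', b', ha', h'⟩ := h'
  exact ⟨a' * a, a' * b + b', mul_ne_zero ha' ha, fun k => by rw [h' k, h k]; ring⟩

/-- The equivalence relation of similarity without reflection on configurations of four labelled
points of the plane. -/
def shape : Setoid (Fin 4 → ℂ) :=
  ⟨Similar, ⟨similar_refl, similar_symm, similar_trans⟩⟩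

/-- The four points lie on one real line. -/
def OnLine (q : Fin 4 → ℂ) : Prop := ∃ a b : ℂ, ∀ k, ∃ t : ℝ, q k = a * t + b

/-- The set of classes, up to translation, rotation and scaling, of the planar central
configurations of four bodies with masses `m` that are not collinear. -/
def nonCollinearClasses (m : Fin 4 → ℝ) : Set (Quotient shape) :=
  {c | ∃ q, IsCC m q ∧ ¬ OnLine q ∧ c = Quotient.mk shape q}

theorem onLine_similar {q q' : Fin 4 → ℂ} (h : Similar q q') (hq : OnLine q) : OnLine q' := by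
  obtain ⟨a, b, -, h⟩ := h
  obtain ⟨c, d, hq⟩ := hq
  refine ⟨a * c, a * d + b, fun k => ?_⟩
  obtain ⟨t, ht⟩ := hq k
  exact ⟨t, by rw [h k, ht]; ring⟩

theorem isCC_similar {m : Fin 4 → ℝ} (hm : ∀ i, 0 < m i) {q q' : Fin 4 → ℂ} (h : Similar q q')
    (hq : IsCC m q) : IsCC m q' := by
  obtain ⟨a, b, ha, h⟩ := h
  obtain ⟨hinj, lam, hl⟩ := hq
  have hM : ((∑ j, m j : ℝ) : ℂ) ≠ 0 := by
    have : 0 < ∑ j, m j := Finset.sum_pos (fun i _ => hm i) ⟨0, mem_univ _⟩
    exact_mod_cast this.ne'
  have hn : (‖a‖ : ℝ) ≠ 0 := norm_ne_zero_iff.2 ha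
  refine ⟨fun i j hij => hinj ?_, lam / ‖a‖ ^ 3, fun i => ?_⟩
  · rw [h i, h j] at hij
    exact mul_left_cancel₀ ha (add_right_cancel hij)
  · have h1 : ∀ j, q' j - q' i = a * (q j - q i) := fun j => by rw [h j, h i]; ring
    have h2 : q' i - (∑ j, (m j : ℂ) * q' j) / ((∑ j, m j : ℝ) : ℂ)
        = a * (q i - (∑ j, (m j : ℂ) * q j) / ((∑ j, m j : ℝ) : ℂ)) := by
      have h3 : (∑ j, (m j : ℂ) * q' j) = a * (∑ j, (m j : ℂ) * q j) + b * ((∑ j, m j : ℝ) : ℂ) := by
        rw [Finset.mul_sum]
        push_cast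
        rw [Finset.mul_sum, ← Finset.sum_add_distrib]
        exact Finset.sum_congr rfl fun j _ => by rw [h j]; ring
      rw [h3, h i]
      field_simp
      ring
    rw [h2]
    have h4 : ∀ j, (m j : ℂ) * (q' j - q' i) / ((‖q' j - q' i‖ ^ 3 : ℝ) : ℂ)
        = (a / ((‖a‖ ^ 3 : ℝ) : ℂ)) * ((m j : ℂ) * (q j - q i) / ((‖q j - q i‖ ^ 3 : ℝ) : ℂ)) := by
      intro j
      rw [h1 j, norm_mul, mul_pow]
      push_cast
      rw [div_mul_div_comm]
      congr 1
      ring
    rw [Finset.sum_congr rfl fun j _ => h4 j, ← Finset.mul_sum, hl i]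
    push_cast
    ring

/-- relabelling by a mass-preserving permutation -/
theorem isCC_perm {m : Fin 4 → ℝ} (σ : Equiv.Perm (Fin 4)) (hσ : ∀ i, m (σ i) = m i)
    {q : Fin 4 → ℂ} (hq : IsCC m q) : IsCC m (q ∘ σ) := by
  obtain ⟨hinj, lam, hl⟩ := hq
  refine ⟨hinj.comp σ.injective, lam, fun i => ?_⟩
  have h1 := hl (σ i)
  have h2 : (∑ j, (m j : ℂ) * (q ∘ σ) j) = ∑ j, (m j : ℂ) * q j := by
    rw [← Equiv.sum_comp σ (fun j => (m j : ℂ) * q j)]
    exact Finset.sum_congr rfl fun j _ => by simp [hσ j]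
  rw [h2]
  simp only [Function.comp]
  rw [← h1]
  refine Finset.sum_nbij' (fun j => σ j) (fun j => σ.symm j) ?_ ?_ ?_ ?_ ?_
  · intro j hj; simpa using hj
  · intro j hj
    simp only [mem_erase, mem_univ, and_true, ne_eq] at hj ⊢
    rintro rfl
    exact hj (by simp)
  · intro j _; simp
  · intro j _; simp
  · intro j _; simp [hσ j]

theorem onLine_perm (σ : Equiv.Perm (Fin 4)) {q : Fin 4 → ℂ} (hq : OnLine q) :
    OnLine (q ∘ σ) := by
  obtain ⟨a, b, h⟩ := hq
  exact ⟨a, b, fun k => h (σ k)⟩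

instance : MulAction (Equiv.Perm (Fin 4)) (Quotient shape) where
  smul σ := Quotient.map (fun q => q ∘ (σ⁻¹ : Equiv.Perm (Fin 4))) (by
    rintro q q' ⟨a, b, ha, h⟩
    exact ⟨a, b, ha, fun k => h _⟩)
  one_smul := by
    intro x
    induction x using Quotient.inductionOn with
    | h q => rfl
  mul_smul := by
    intro σ τ x
    induction x using Quotient.inductionOn with
    | h q =>
      change Quotient.mk shape _ = Quotient.mk shape _
      congr 1

theorem smul_mk (σ : Equiv.Perm (Fin 4)) (q : Fin 4 → ℂ) :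
    σ • (Quotient.mk shape q) = Quotient.mk shape (q ∘ (σ⁻¹ : Equiv.Perm (Fin 4))) := rfl

theorem mk_eq_iff (q q' : Fin 4 → ℂ) :
    Quotient.mk shape q = Quotient.mk shape q' ↔ Similar q q' := by
  constructor
  · intro h; exact Quotient.exact h
  · intro h; exact Quotient.sound h

theorem mk_mem_iff {m : Fin 4 → ℝ} (hm : ∀ i, 0 < m i) (q : Fin 4 → ℂ) :
    Quotient.mk shape q ∈ nonCollinearClasses m ↔ IsCC m q ∧ ¬ OnLine q := by
  constructor
  · rintro ⟨q', h1, h2, h3⟩
    rw [mk_eq_iff] at h3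
    exact ⟨isCC_similar hm (similar_symm h3) h1, fun h => h2 (onLine_similar h3 h)⟩
  · rintro ⟨h1, h2⟩
    exact ⟨q, h1, h2, rfl⟩

theorem smul_mem {m : Fin 4 → ℝ} (σ : Equiv.Perm (Fin 4)) (hσ : ∀ i, m (σ i) = m i)
    {x : Quotient shape} (hx : x ∈ nonCollinearClasses m) : σ • x ∈ nonCollinearClasses m := by
  obtain ⟨q, h1, h2, rfl⟩ := hx
  have h3 : ∀ i, m (σ⁻¹ i) = m i := fun i => by
    have h := hσ (σ⁻¹ i)
    have h' : σ (σ⁻¹ i) = i := by simp
    rw [h'] at h
    exact h.symm
  refine ⟨q ∘ (σ⁻¹ : Equiv.Perm (Fin 4)), isCC_perm _ h3 h1, fun h => h2 ?_, rfl⟩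
  have h4 := onLine_perm σ h
  have h5 : (q ∘ (σ⁻¹ : Equiv.Perm (Fin 4))) ∘ σ = q := by
    funext k; simp
  rwa [h5] at h4

/-- a free finite group action -/
theorem card_dvd_of_free {G α : Type*} [Group G] [Fintype G] [MulAction G α] [DecidableEq α]
    (C : Finset α) (hC : ∀ (g : G) x, x ∈ C → g • x ∈ C)
    (hf : ∀ (g : G) x, x ∈ C → g • x = x → g = 1) : Fintype.card G ∣ C.card := by
  induction C using Finset.strongInduction with
  | H C ih =>
    rcases C.eq_empty_or_nonempty with rfl | ⟨x, hx⟩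
    · simp
    · have hO : (univ : Finset G).image (fun g => g • x) ⊆ C := by
        intro y hy
        obtain ⟨g, -, rfl⟩ := Finset.mem_image.1 hy
        exact hC g x hx
      have hcard : ((univ : Finset G).image (fun g => g • x)).card = Fintype.card G := by
        rw [Finset.card_image_of_injective]
        · rfl
        · intro g h hgh
          have h1 : (h⁻¹ * g) • x = x := by
            rw [mul_smul]
            change g • x = h • x at hgh
            rw [hgh, inv_smul_smul]
          have h2 := hf _ x hx h1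
          rw [inv_mul_eq_one] at h2
          exact h2.symm
      have h1 : C \ (univ : Finset G).image (fun g => g • x) ⊂ C := by
        refine Finset.sdiff_ssubset hO ⟨x, Finset.mem_image.2 ⟨1, mem_univ _, one_smul _ _⟩⟩
      have h2 := ih _ h1 (by
        intro g y hy
        rw [Finset.mem_sdiff] at hy ⊢
        refine ⟨hC g y hy.1, fun h => hy.2 ?_⟩
        obtain ⟨k, -, hk⟩ := Finset.mem_image.1 h
        refine Finset.mem_image.2 ⟨g⁻¹ * k, mem_univ _, ?_⟩
        rw [mul_smul]
        change k • x = g • y at hk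
        rw [hk, inv_smul_smul]) (by
        intro g y hy
        exact hf g y (Finset.mem_sdiff.1 hy).1)
      have h3 := Finset.card_sdiff_add_card_eq_card hO
      rw [hcard] at h3
      rw [← h3]
      exact dvd_add h2 dvd_rfl

/-- A finite set with a group action in which exactly two points are fixed by some non-identity
element. -/
theorem card_mod {G α : Type*} [Group G] [Fintype G] [MulAction G α]
    (X : Finset α) (hX : ∀ (g : G) x, x ∈ X → g • x ∈ X) (y z : α) (hyz : y ≠ z)
    (hy : y ∈ X) (hz : z ∈ X)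
    (hfix : ∀ x ∈ X, (∃ g : G, g ≠ 1 ∧ g • x = x) ↔ x = y ∨ x = z) :
    ∃ k, X.card = Fintype.card G * k + 2 := by
  classical
  have h1 : Fintype.card G ∣ (X \ {y, z}).card := by
    refine card_dvd_of_free (G := G) _ ?_ ?_
    · intro g x hx
      rw [Finset.mem_sdiff] at hx ⊢
      refine ⟨hX g x hx.1, fun h => hx.2 ?_⟩
      have h2 : g • x = y ∨ g • x = z := by simpa using h
      obtain ⟨k, hk, hk'⟩ := (hfix _ (hX g x hx.1)).2 h2
      have h3 : x = y ∨ x = z := by
        refine (hfix x hx.1).1 ⟨g⁻¹ * k * g, ?_, ?_⟩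
        · intro h
          apply hk
          have := congrArg (fun w => g * w * g⁻¹) h
          simpa [mul_assoc] using this
        · rw [mul_smul, mul_smul, hk', inv_smul_smul]
      simpa using h3
    · intro g x hx hg
      rw [Finset.mem_sdiff] at hx
      by_contra hne
      exact hx.2 (by simpa using (hfix x hx.1).1 ⟨g, hne, hg⟩)
  obtain ⟨k, hk⟩ := h1
  refine ⟨k, ?_⟩
  have h2 : ({y, z} : Finset α) ⊆ X := by
    intro w hw
    simp only [mem_insert, mem_singleton] at hw
    rcases hw with rfl | rfl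
    · exact hy
    · exact hz
  have h3 := Finset.card_sdiff_add_card_eq_card h2
  rw [hk, Finset.card_pair hyz] at h3
  exact h3.symm

end FourBody
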