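import Pool.Agent.H39.FB.Count

set_option autoImplicit false

namespace FourBody

open Finset

/-- the permutation `0 ↔ 1`, `2 ↔ 3` -/
def dbl : Equiv.Perm (Fin 4) := Equiv.swap 0 1 * Equiv.swap 2 3

theorem dbl_val : dbl 0 = 1 ∧ dbl 1 = 0 ∧ dbl 2 = 3 ∧ dbl 3 = 2 := by decide +kernel

theorem dbl_mem : dbl⁻¹ ∈ blk B22 := by decide +kernel

theorem dbl_ne : dbl⁻¹ ≠ 1 := by decide +kernel

theorem two_pairs {m : Fin 4 → ℝ} (hm : ∀ i, 0 < m i) (h01 : m 0 = m 1) (h23 : m 2 = m 3)
    (hfin : (nonCollinearClasses m).Finite) :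
    (nonCollinearClasses m).ncard % 4 = 2 := by
  classical
  obtain ⟨t, ht, hPhi⟩ := Phi_exists (hm 0) (hm 2)
  have hCC : IsCC m (P (Complex.I * t)) := P_isCC h01 h23 ht hPhi
  have hswap : P (Complex.I * ((-t : ℝ) : ℂ)) = P (Complex.I * t) ∘ (Equiv.swap (2 : Fin 4) 3) := by
    funext k
    rcases fin4 k with rfl | rfl | rfl | rfl
    · have : (Equiv.swap (2 : Fin 4) 3) 0 = 0 := by decide
      simp only [Function.comp, this, P0]
    · have : (Equiv.swap (2 : Fin 4) 3) 1 = 1 := by decide
      simp only [Function.comp, this, P1]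
    · have : (Equiv.swap (2 : Fin 4) 3) 2 = 3 := by decide
      simp only [Function.comp, this, P2, P3]; push_cast; ring
    · have : (Equiv.swap (2 : Fin 4) 3) 3 = 2 := by decide
      simp only [Function.comp, this, P2, P3]; push_cast; ring
  have hCC' : IsCC m (P (Complex.I * ((-t : ℝ) : ℂ))) := by
    rw [hswap]
    refine isCC_perm _ ?_ hCC
    intro i
    rcases fin4 i with rfl | rfl | rfl | rfl
    · rw [show (Equiv.swap (2 : Fin 4) 3) 0 = 0 by decide]
    · rw [show (Equiv.swap (2 : Fin 4) 3) 1 = 1 by decide]
    · rw [show (Equiv.swap (2 : Fin 4) 3) 2 = 3 by decide]; exact h23.symm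
    · rw [show (Equiv.swap (2 : Fin 4) 3) 3 = 2 by decide]; exact h23
  rw [Set.ncard_eq_toFinset_card _ hfin]
  have hmB : ∀ σ : Equiv.Perm (Fin 4), σ ∈ blk B22 → ∀ i, m (σ i) = m i := by
    intro σ hσ i
    have h1 := hσ i
    have key : ∀ a b : Fin 4, B22 a = B22 b → m a = m b := by
      intro a b hab
      rcases fin4 a with rfl | rfl | rfl | rfl <;> rcases fin4 b with rfl | rfl | rfl | rfl <;>
        first
          | rfl
          | exact h01
          | exact h01.symm
          | exact h23
          | exact h23.symm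
          | exact absurd hab (by decide)
    exact key _ _ h1
  obtain ⟨k, hk⟩ := card_mod (G := blk B22) hfin.toFinset (by
      intro g x hx
      rw [Set.Finite.mem_toFinset] at hx ⊢
      exact smul_mem (g : Equiv.Perm (Fin 4)) (hmB _ g.2) hx)
    (Quotient.mk shape (P (Complex.I * t))) (Quotient.mk shape (P (Complex.I * ((-t : ℝ) : ℂ))))
    (by rw [Ne, mk_eq_iff]; exact P_similar_ne ht.ne')
    (by rw [Set.Finite.mem_toFinset, mk_mem_iff hm]
        exact ⟨hCC, P_not_onLine ht.ne'⟩)
    (by rw [Set.Finite.mem_toFinset, mk_mem_iff hm]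
        exact ⟨hCC', P_not_onLine (neg_ne_zero.2 ht.ne')⟩)
    (by
      intro x hx
      rw [Set.Finite.mem_toFinset] at hx
      constructor
      · rintro ⟨g, hg1, hgx⟩
        obtain ⟨q, hcc, hnl, rfl⟩ := hx
        have hinj := hcc.1
        have h1 : Quotient.mk shape (q ∘ ((g : Equiv.Perm (Fin 4))⁻¹ : Equiv.Perm (Fin 4)))
            = Quotient.mk shape q := hgx
        rw [mk_eq_iff] at h1
        obtain ⟨a, b, ha, h2⟩ := similar_symm h1
        have hblk : ∀ i, B22 (((g : Equiv.Perm (Fin 4))⁻¹ : Equiv.Perm (Fin 4)) i) = B22 i :=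
          (g⁻¹).2
        have hne : ((g : Equiv.Perm (Fin 4))⁻¹ : Equiv.Perm (Fin 4)) ≠ 1 := by
          intro h
          apply hg1
          rw [inv_eq_one] at h
          exact Subtype.ext h
        have g0 := h2 0
        have g1 := h2 1
        have g2 := h2 2
        have g3 := h2 3
        simp only [Function.comp] at g0 g1 g2 g3
        rcases cases_B22 _ hblk hne with ⟨c0, c1, c2, c3⟩ | ⟨c0, c1, c2, c3⟩ |
            ⟨c0, c1, c2, c3⟩ <;> rw [c0] at g0 <;> rw [c1] at g1 <;>
            rw [c2] at g2 <;> rw [c3] at g3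
        · exact (no_swap hinj (by decide : (0 : Fin 4) ≠ 1) (by decide : (2 : Fin 4) ≠ 3)
            g0 g2 g3).elim
        · exact (no_swap hinj (by decide : (2 : Fin 4) ≠ 3) (by decide : (0 : Fin 4) ≠ 1)
            g2 g0 g1).elim
        · -- q 1 = a q 0 + b, q 0 = a q 1 + b, q 3 = a q 2 + b, q 2 = a q 3 + b
          have hne01 : q 0 - q 1 ≠ 0 :=
            sub_ne_zero.2 fun h => (by decide : (0 : Fin 4) ≠ 1) (hinj h)
          have ha1 : a = -1 := by
            have h3 : (a + 1) * (q 0 - q 1) = 0 := by linear_combination g1 - g0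
            rcases mul_eq_zero.1 h3 with h | h
            · linear_combination h
            · exact absurd h hne01
          rw [ha1] at g0 g2
          -- centre `b / 2`
          have hu : q 0 - b / 2 ≠ 0 := by
            intro h
            apply hne01
            linear_combination 2 * h - g0
          have hsim : Similar (P ((q 2 - b / 2) / (q 0 - b / 2))) q := by
            refine ⟨q 0 - b / 2, b / 2, hu, fun k => ?_⟩
            rcases fin4 k with rfl | rfl | rfl | rfl
            · rw [P0]; ring
            · rw [P1]; linear_combination g0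
            · rw [P2, mul_div_cancel₀ _ hu]; ring
            · rw [P3, mul_neg, mul_div_cancel₀ _ hu]; linear_combination g2
          have hP1 := isCC_similar hm (similar_symm hsim) hcc
          have hP2 : ¬ OnLine (P ((q 2 - b / 2) / (q 0 - b / 2))) := fun h =>
            hnl (onLine_similar hsim h)
          obtain ⟨u, hu0, huPhi, huc⟩ := P_form hm h01 h23 hP1 hP2
          have hut : u = t := Phi_unique (hm 0) (hm 2) hu0 ht huPhi hPhi
          rcases huc with h | h
          · left
            rw [mk_eq_iff, ← hut, ← h]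
            exact similar_symm hsim
          · right
            rw [mk_eq_iff, ← hut, ← h]
            exact similar_symm hsim
      · intro hx'
        have hgen : ∀ c : ℂ, ∃ g : blk B22, g ≠ 1 ∧
            g • Quotient.mk shape (P c) = Quotient.mk shape (P c) := by
          intro c
          refine ⟨⟨dbl⁻¹, dbl_mem⟩, ?_, ?_⟩
          · intro h
            exact dbl_ne (congrArg (fun g : blk B22 => (g : Equiv.Perm (Fin 4))) h)
          · change Quotient.mk shape (P c ∘ ((dbl⁻¹)⁻¹ : Equiv.Perm (Fin 4)))
              = Quotient.mk shape (P c)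
            rw [mk_eq_iff, inv_inv]
            refine similar_symm ⟨-1, 0, by norm_num, fun k => ?_⟩
            simp only [Function.comp]
            rcases fin4 k with rfl | rfl | rfl | rfl
            · rw [dbl_val.1, P0, P1]; ring
            · rw [dbl_val.2.1, P0, P1]; ring
            · rw [dbl_val.2.2.1, P2, P3]; ring
            · rw [dbl_val.2.2.2, P2, P3]; ring
        rcases hx' with rfl | rfl
        · exact hgen _
        · exact hgen _)
  rw [hk, card_B22]
  omega

end FourBody
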