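import Pool.Agent.H39.FB.Moulton
import Pool.Agent.H39.FB.Pairs

set_option autoImplicit false

namespace FourBody

open Finset

/-- normalised equations of a configuration on the real line -/
def NormEq (m x : Fin 4 → ℝ) : Prop :=
  ∀ i, ∑ j ∈ univ.erase i, m j * (x j - x i) / |x j - x i| ^ 3 = -x i

theorem rsum0 (f : Fin 4 → ℝ) : ∑ j ∈ univ.erase (0 : Fin 4), f j = f 1 + f 2 + f 3 := by
  have : (univ.erase (0 : Fin 4)) = {1, 2, 3} := by decide
  rw [this]; simp [add_assoc]

theorem rsum1 (f : Fin 4 → ℝ) : ∑ j ∈ univ.erase (1 : Fin 4), f j = f 0 + f 2 + f 3 := by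
  have : (univ.erase (1 : Fin 4)) = {0, 2, 3} := by decide
  rw [this]; simp [add_assoc]

theorem rsum2 (f : Fin 4 → ℝ) : ∑ j ∈ univ.erase (2 : Fin 4), f j = f 0 + f 1 + f 3 := by
  have : (univ.erase (2 : Fin 4)) = {0, 1, 3} := by decide
  rw [this]; simp [add_assoc]

theorem rsum3 (f : Fin 4 → ℝ) : ∑ j ∈ univ.erase (3 : Fin 4), f j = f 0 + f 1 + f 2 := by
  have : (univ.erase (3 : Fin 4)) = {0, 1, 2} := by decide
  rw [this]; simp [add_assoc]

theorem ord_iff (x : Fin 4 → ℝ) : Ord x ↔ StrictMono x := by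
  rw [Fin.strictMono_iff_lt_succ]
  constructor
  · rintro ⟨h1, h2, h3⟩ i
    fin_cases i
    · exact h1
    · exact h2
    · exact h3
  · intro h
    exact ⟨h 0, h 1, h 2⟩

theorem term_pos (μ d : ℝ) (h : 0 < d) : μ * d / |d| ^ 3 = μ / d ^ 2 := by
  rw [abs_of_pos h]; field_simp

theorem term_neg (μ a b : ℝ) (h : a < b) : μ * (a - b) / |a - b| ^ 3 = -(μ / (b - a) ^ 2) := by
  have h1 : a - b < 0 := by linarith
  have h2 : b - a ≠ 0 := by linarith
  rw [abs_of_neg h1, neg_sub, ← neg_sub b a]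
  field_simp

theorem crit_iff {m x : Fin 4 → ℝ} (hx : Ord x) : NormEq m x ↔ Crit m x := by
  obtain ⟨x01, x12, x23⟩ := hx
  have e0 : ∑ j ∈ univ.erase (0 : Fin 4), m j * (x j - x 0) / |x j - x 0| ^ 3
      = m 1 / (x 1 - x 0) ^ 2 + m 2 / (x 2 - x 0) ^ 2 + m 3 / (x 3 - x 0) ^ 2 := by
    rw [rsum0, term_pos _ _ (by linarith), term_pos _ _ (by linarith), term_pos _ _ (by linarith)]
  have e1 : ∑ j ∈ univ.erase (1 : Fin 4), m j * (x j - x 1) / |x j - x 1| ^ 3
      = -(m 0 / (x 1 - x 0) ^ 2) + m 2 / (x 2 - x 1) ^ 2 + m 3 / (x 3 - x 1) ^ 2 := by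
    rw [rsum1, term_neg _ _ _ x01, term_pos _ _ (by linarith), term_pos _ _ (by linarith)]
  have e2 : ∑ j ∈ univ.erase (2 : Fin 4), m j * (x j - x 2) / |x j - x 2| ^ 3
      = -(m 0 / (x 2 - x 0) ^ 2) - m 1 / (x 2 - x 1) ^ 2 + m 3 / (x 3 - x 2) ^ 2 := by
    rw [rsum2, term_neg _ _ _ (by linarith), term_neg _ _ _ x12, term_pos _ _ (by linarith)]
    ring
  have e3 : ∑ j ∈ univ.erase (3 : Fin 4), m j * (x j - x 3) / |x j - x 3| ^ 3
      = -(m 0 / (x 3 - x 0) ^ 2) - m 1 / (x 3 - x 1) ^ 2 - m 2 / (x 3 - x 2) ^ 2 := by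
    rw [rsum3, term_neg _ _ _ (by linarith), term_neg _ _ _ (by linarith), term_neg _ _ _ x23]
    ring
  constructor
  · intro h
    refine ⟨?_, ?_, ?_, ?_⟩
    · rw [← e0]; exact h 0
    · rw [← e1]; exact h 1
    · rw [← e2]; exact h 2
    · rw [← e3]; exact h 3
  · rintro ⟨h0, h1, h2, h3⟩ i
    rcases fin4 i with rfl | rfl | rfl | rfl
    · rw [e0]; exact h0
    · rw [e1]; exact h1
    · rw [e2]; exact h2
    · rw [e3]; exact h3

theorem normEq_perm {m x : Fin 4 → ℝ} (σ : Equiv.Perm (Fin 4)) (h : NormEq m x) :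
    NormEq (m ∘ σ) (x ∘ σ) := by
  intro i
  have h1 := h (σ i)
  simp only [Function.comp]
  rw [← h1]
  refine Finset.sum_nbij' (fun j => σ j) (fun j => σ.symm j) ?_ ?_ ?_ ?_ ?_
  · intro j hj; simpa using hj
  · intro j hj
    simp only [mem_erase, mem_univ, and_true, ne_eq] at hj ⊢
    rintro rfl
    exact hj (by simp)
  · intro j _; simp
  · intro j _; simp
  · intro j _; rfl

theorem normEq_neg {m x : Fin 4 → ℝ} (h : NormEq m x) : NormEq m (fun k => -x k) := by
  intro i
  have h1 := h i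
  have h2 : ∀ j, m j * (-x j - -x i) / |-x j - -x i| ^ 3
      = -(m j * (x j - x i) / |x j - x i| ^ 3) := by
    intro j
    have h3 : -x j - -x i = -(x j - x i) := by ring
    rw [h3, abs_neg]; ring
  rw [Finset.sum_congr rfl fun j _ => h2 j, Finset.sum_neg_distrib, h1]

theorem normEq_sum {m x : Fin 4 → ℝ} (h : NormEq m x) : ∑ j, m j * x j = 0 := by
  have h0 := h 0
  have h1 := h 1
  have h2 := h 2
  have h3 := h 3
  rw [rsum0] at h0
  rw [rsum1, abs_sub_comm (x 0) (x 1)] at h1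
  rw [rsum2, abs_sub_comm (x 0) (x 2), abs_sub_comm (x 1) (x 2)] at h2
  rw [rsum3, abs_sub_comm (x 0) (x 3), abs_sub_comm (x 1) (x 3), abs_sub_comm (x 2) (x 3)] at h3
  rw [Fin.sum_univ_four]
  simp only [div_eq_mul_inv] at h0 h1 h2 h3
  linear_combination m 0 * h0 + m 1 * h1 + m 2 * h2 + m 3 * h3

/-- a real configuration as a configuration in the plane -/
noncomputable def toC (x : Fin 4 → ℝ) : Fin 4 → ℂ := fun k => (x k : ℂ)

theorem isCC_toC {m x : Fin 4 → ℝ} (hinj : Function.Injective x) (h : NormEq m x) :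
    IsCC m (toC x) := by
  refine ⟨fun i j hij => hinj (Complex.ofReal_injective hij), -1, fun i => ?_⟩
  have hs : (∑ j, (m j : ℂ) * toC x j) = 0 := by
    have := normEq_sum h
    simp only [toC]
    exact_mod_cast this
  rw [hs, zero_div, sub_zero]
  have h1 := h i
  have h2 : ∀ j, (m j : ℂ) * (toC x j - toC x i) / ((‖toC x j - toC x i‖ ^ 3 : ℝ) : ℂ)
      = ((m j * (x j - x i) / |x j - x i| ^ 3 : ℝ) : ℂ) := by
    intro j
    have h3 : toC x j - toC x i = ((x j - x i : ℝ) : ℂ) := by simp [toC]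
    rw [h3, Complex.norm_real, Real.norm_eq_abs]
    push_cast
    ring
  rw [Finset.sum_congr rfl fun j _ => h2 j, ← Complex.ofReal_sum, h1]
  simp [toC]

theorem onLine_toC (x : Fin 4 → ℝ) : OnLine (toC x) :=
  ⟨1, 0, fun k => ⟨x k, by simp [toC]⟩⟩

/-- every collinear central configuration is similar to a normalised real one -/
theorem exists_norm {m : Fin 4 → ℝ} (hm : ∀ i, 0 < m i) {q : Fin 4 → ℂ} (hq : IsCC m q)
    (hl : OnLine q) : ∃ x : Fin 4 → ℝ, Function.Injective x ∧ NormEq m x ∧ Similar q (toC x) := by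
  obtain ⟨a, b, hab⟩ := hl
  choose t ht using hab
  have ha : a ≠ 0 := by
    rintro rfl
    exact (by decide : (0 : Fin 4) ≠ 1) (hq.1 (by rw [ht 0, ht 1]; ring))
  have hsim : Similar (toC t) q := ⟨a, b, ha, fun k => ht k⟩
  have hq' := isCC_similar hm (similar_symm hsim) hq
  obtain ⟨hinj', lam, hlam⟩ := hq'
  have hinj : Function.Injective t := fun i j hij => hinj' (by simp [toC, hij])
  have hM : 0 < ∑ j, m j := Finset.sum_pos (fun i _ => hm i) ⟨0, mem_univ _⟩
  set c := (∑ j, m j * t j) / ∑ j, m j with hc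
  -- the real equations
  have hreal : ∀ i, ∑ j ∈ univ.erase i, m j * (t j - t i) / |t j - t i| ^ 3 = lam * (t i - c) := by
    intro i
    have h1 := hlam i
    have h2 : ∀ j, (m j : ℂ) * (toC t j - toC t i) / ((‖toC t j - toC t i‖ ^ 3 : ℝ) : ℂ)
        = ((m j * (t j - t i) / |t j - t i| ^ 3 : ℝ) : ℂ) := by
      intro j
      have h3 : toC t j - toC t i = ((t j - t i : ℝ) : ℂ) := by simp [toC]
      rw [h3, Complex.norm_real, Real.norm_eq_abs]
      push_cast
      ring
    rw [Finset.sum_congr rfl fun j _ => h2 j, ← Complex.ofReal_sum] at h1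
    have h4 : (lam : ℂ) * (toC t i - (∑ j, (m j : ℂ) * toC t j) / ((∑ j, m j : ℝ) : ℂ))
        = ((lam * (t i - c) : ℝ) : ℂ) := by
      rw [hc]
      simp only [toC]
      push_cast
      ring
    rw [h4] at h1
    exact_mod_cast h1
  set y : Fin 4 → ℝ := fun k => t k - c with hy
  have hyeq : ∀ i, ∑ j ∈ univ.erase i, m j * (y j - y i) / |y j - y i| ^ 3 = lam * y i := by
    intro i
    have h1 : ∀ j, y j - y i = t j - t i := fun j => by simp only [hy]; ring
    simp only [h1]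
    exact hreal i
  have hyinj : Function.Injective y := fun i j hij => hinj (by
    have : t i - c = t j - c := hij
    linarith)
  have m0 := hm 0
  have m1 := hm 1
  have m2 := hm 2
  have m3 := hm 3
  have hlamneg : lam < 0 := by
    have h0 := hyeq 0
    have h1 := hyeq 1
    have h2 := hyeq 2
    have h3 := hyeq 3
    rw [rsum0] at h0
    rw [rsum1, abs_sub_comm (y 0) (y 1)] at h1
    rw [rsum2, abs_sub_comm (y 0) (y 2), abs_sub_comm (y 1) (y 2)] at h2
    rw [rsum3, abs_sub_comm (y 0) (y 3), abs_sub_comm (y 1) (y 3), abs_sub_comm (y 2) (y 3)] at h3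
    have hpos : ∀ (μ ν : ℝ) (i j : Fin 4), 0 < μ → 0 < ν → i ≠ j →
        0 < μ * ν * ((y j - y i) ^ 2 / |y j - y i| ^ 3) := by
      intro μ ν i j hμ hν hij
      have h4 : y j - y i ≠ 0 := sub_ne_zero.2 fun h => hij (hyinj h).symm
      have h5 : 0 < |y j - y i| := abs_pos.2 h4
      positivity
    have p01 := hpos (m 0) (m 1) 0 1 m0 m1 (by decide)
    have p02 := hpos (m 0) (m 2) 0 2 m0 m2 (by decide)
    have p03 := hpos (m 0) (m 3) 0 3 m0 m3 (by decide)
    have p12 := hpos (m 1) (m 2) 1 2 m1 m2 (by decide)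
    have p13 := hpos (m 1) (m 3) 1 3 m1 m3 (by decide)
    have p23 := hpos (m 2) (m 3) 2 3 m2 m3 (by decide)
    simp only [div_eq_mul_inv] at h0 h1 h2 h3 p01 p02 p03 p12 p13 p23
    have hsum : lam * (m 0 * y 0 ^ 2 + m 1 * y 1 ^ 2 + m 2 * y 2 ^ 2 + m 3 * y 3 ^ 2)
        = -(m 0 * m 1 * ((y 1 - y 0) ^ 2 * (|y 1 - y 0| ^ 3)⁻¹)
          + m 0 * m 2 * ((y 2 - y 0) ^ 2 * (|y 2 - y 0| ^ 3)⁻¹)
          + m 0 * m 3 * ((y 3 - y 0) ^ 2 * (|y 3 - y 0| ^ 3)⁻¹)
          + m 1 * m 2 * ((y 2 - y 1) ^ 2 * (|y 2 - y 1| ^ 3)⁻¹)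
          + m 1 * m 3 * ((y 3 - y 1) ^ 2 * (|y 3 - y 1| ^ 3)⁻¹)
          + m 2 * m 3 * ((y 3 - y 2) ^ 2 * (|y 3 - y 2| ^ 3)⁻¹)) := by
      linear_combination (-(m 0 * y 0)) * h0 - m 1 * y 1 * h1 - m 2 * y 2 * h2 - m 3 * y 3 * h3
    have hI : 0 ≤ m 0 * y 0 ^ 2 + m 1 * y 1 ^ 2 + m 2 * y 2 ^ 2 + m 3 * y 3 ^ 2 := by positivity
    by_contra hcon
    push Not at hcon
    have := mul_nonneg hcon hI
    linarith
  obtain ⟨s, hs, hs3⟩ : ∃ s : ℝ, 0 < s ∧ s ^ 3 = -lam := by
    refine ⟨(-lam) ^ ((1 : ℝ) / 3), Real.rpow_pos_of_pos (by linarith) _, ?_⟩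
    rw [← Real.rpow_natCast, ← Real.rpow_mul (by linarith)]
    norm_num
  refine ⟨fun k => s * y k, fun i j hij => hyinj (mul_left_cancel₀ hs.ne' hij), fun i => ?_, ?_⟩
  · have h1 : ∀ j, m j * (s * y j - s * y i) / |s * y j - s * y i| ^ 3
        = (1 / s ^ 2) * (m j * (y j - y i) / |y j - y i| ^ 3) := by
      intro j
      have h2 : s * y j - s * y i = s * (y j - y i) := by ring
      rw [h2, abs_mul, abs_of_pos hs, mul_pow]
      by_cases h3 : |y j - y i| = 0
      · rw [h3]; simp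
      · field_simp
    rw [Finset.sum_congr rfl fun j _ => h1 j, ← Finset.mul_sum, hyeq i]
    have h4 : lam = -s ^ 3 := by linarith
    rw [h4]
    field_simp
  · refine similar_trans (similar_symm hsim) ⟨(s : ℂ), -((s * c : ℝ) : ℂ), ?_, fun k => ?_⟩
    · exact_mod_cast hs.ne'
    · simp only [toC, hy]
      push_cast
      ring

/-! ### counting -/

/-- the normalised ordered solution -/
noncomputable def zsol (m : {m : Fin 4 → ℝ // ∀ i, 0 < m i}) : Fin 4 → ℝ :=
  (exists_crit m.2).choose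

theorem zsol_spec (m : {m : Fin 4 → ℝ // ∀ i, 0 < m i}) :
    Ord (zsol m) ∧ Crit m.1 (zsol m) := (exists_crit m.2).choose_spec

/-- the normalised solution with the order prescribed by a permutation -/
noncomputable def xsol {m : Fin 4 → ℝ} (hm : ∀ i, 0 < m i) (π : Equiv.Perm (Fin 4)) :
    Fin 4 → ℝ :=
  zsol ⟨m ∘ π, fun i => hm (π i)⟩ ∘ π.symm

theorem xsol_comp {m : Fin 4 → ℝ} (hm : ∀ i, 0 < m i) (π : Equiv.Perm (Fin 4)) :
    xsol hm π ∘ π = zsol ⟨m ∘ π, fun i => hm (π i)⟩ := by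
  funext k; simp [xsol]

theorem xsol_mono {m : Fin 4 → ℝ} (hm : ∀ i, 0 < m i) (π : Equiv.Perm (Fin 4)) :
    StrictMono (xsol hm π ∘ π) := by
  rw [xsol_comp, ← ord_iff]
  exact (zsol_spec _).1

theorem xsol_norm {m : Fin 4 → ℝ} (hm : ∀ i, 0 < m i) (π : Equiv.Perm (Fin 4)) :
    NormEq m (xsol hm π) := by
  have h1 := zsol_spec ⟨m ∘ π, fun i => hm (π i)⟩
  have h2 : NormEq (m ∘ π) (zsol ⟨m ∘ π, fun i => hm (π i)⟩) := (crit_iff h1.1).2 h1.2
  have h3 := normEq_perm π.symm h2
  have h4 : (m ∘ π) ∘ π.symm = m := by funext k; simp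
  rwa [h4] at h3

theorem inj_of_mono {x : Fin 4 → ℝ} {π : Equiv.Perm (Fin 4)} (h : StrictMono (x ∘ π)) :
    Function.Injective x := by
  have h1 : x = (x ∘ π) ∘ π.symm := by funext k; simp
  rw [h1]
  exact h.injective.comp π.symm.injective

theorem xsol_unique {m : Fin 4 → ℝ} (hm : ∀ i, 0 < m i) {π : Equiv.Perm (Fin 4)}
    {x : Fin 4 → ℝ} (hx : NormEq m x) (hmono : StrictMono (x ∘ π)) : x = xsol hm π := by
  have h1 : Ord (x ∘ π) := (ord_iff _).2 hmono
  have h2 : Crit (m ∘ π) (x ∘ π) := (crit_iff h1).1 (normEq_perm π hx)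
  have h3 := zsol_spec ⟨m ∘ π, fun i => hm (π i)⟩
  have h4 : x ∘ π = zsol ⟨m ∘ π, fun i => hm (π i)⟩ :=
    crit_unique (fun i => hm (π i)) h1 h3.1 h2 h3.2
  have h5 : x = (x ∘ π) ∘ π.symm := by funext k; simp
  rw [h5, h4]; rfl

theorem perm_unique {x : Fin 4 → ℝ} {π τ : Equiv.Perm (Fin 4)} (h : StrictMono (x ∘ π))
    (h' : StrictMono (x ∘ τ)) : π = τ := by
  have h1 : x ∘ π = x ∘ τ := by
    rw [← StrictMono.range_inj h h', Set.range_comp, Set.range_comp, π.surjective.range_eq,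
      τ.surjective.range_eq]
  have h2 := inj_of_mono h
  ext k
  have h3 := congrFun h1 k
  exact congrArg Fin.val (h2 h3)

theorem exists_perm {x : Fin 4 → ℝ} (h : Function.Injective x) :
    ∃ π : Equiv.Perm (Fin 4), StrictMono (x ∘ π) :=
  ⟨Tuple.sort x, (Tuple.monotone_sort x).strictMono_of_injective (h.comp (Tuple.sort x).injective)⟩

/-- class of the collinear configuration in the order `π` -/
noncomputable def colClass {m : Fin 4 → ℝ} (hm : ∀ i, 0 < m i) (π : Equiv.Perm (Fin 4)) :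
    Quotient shape := Quotient.mk shape (toC (xsol hm π))

theorem neg_mono {x : Fin 4 → ℝ} {π : Equiv.Perm (Fin 4)} (h : StrictMono (x ∘ π)) :
    StrictMono ((fun k => -x k) ∘ (π * (Fin.revPerm : Equiv.Perm (Fin 4)))) := by
  intro i j hij
  have h1 := h (Fin.rev_lt_rev.2 hij)
  simp only [Function.comp, Equiv.Perm.mul_apply, Fin.revPerm_apply] at h1 ⊢
  linarith

theorem colClass_eq_iff {m : Fin 4 → ℝ} (hm : ∀ i, 0 < m i) (π τ : Equiv.Perm (Fin 4)) :
    colClass hm π = colClass hm τ ↔ τ = π ∨ τ = π * Fin.revPerm := by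
  constructor
  · intro h
    rw [colClass, colClass, mk_eq_iff] at h
    obtain ⟨a, b, ha, hab⟩ := h
    set x := xsol hm π with hx
    set y := xsol hm τ with hy
    have hxinj : Function.Injective x := inj_of_mono (xsol_mono hm π)
    have hd : x 1 - x 0 ≠ 0 := sub_ne_zero.2 fun h => (by decide : (1 : Fin 4) ≠ 0) (hxinj h)
    have h0 := hab 0
    have h1 := hab 1
    simp only [toC] at h0 h1 hab
    have hdc : ((x 1 - x 0 : ℝ) : ℂ) ≠ 0 := by exact_mod_cast hd
    have hare : a = (((y 1 - y 0) / (x 1 - x 0) : ℝ) : ℂ) := by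
      push_cast at hdc ⊢
      rw [eq_div_iff hdc]
      linear_combination h0 - h1
    set α : ℝ := (y 1 - y 0) / (x 1 - x 0) with hα
    have hbre : b = ((y 0 - α * x 0 : ℝ) : ℂ) := by
      push_cast
      rw [hare] at h0
      linear_combination -h0
    set β : ℝ := y 0 - α * x 0 with hβ
    have hreal : ∀ k, y k = α * x k + β := by
      intro k
      have := hab k
      rw [hare, hbre] at this
      exact_mod_cast this
    have hα0 : α ≠ 0 := by
      intro h
      rw [h] at hare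
      exact ha (by simpa using hare)
    have hM : 0 < ∑ j, m j := Finset.sum_pos (fun i _ => hm i) ⟨0, mem_univ _⟩
    have hsx := normEq_sum (xsol_norm hm π)
    have hsy := normEq_sum (xsol_norm hm τ)
    rw [← hx] at hsx
    rw [← hy] at hsy
    have hβ0 : β = 0 := by
      have h2 : ∑ j, m j * y j = α * ∑ j, m j * x j + β * ∑ j, m j := by
        rw [Finset.mul_sum, Finset.mul_sum, ← Finset.sum_add_distrib]
        exact Finset.sum_congr rfl fun j _ => by rw [hreal j]; ring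
      rw [hsx, hsy, mul_zero, zero_add] at h2
      rcases mul_eq_zero.1 h2.symm with h3 | h3
      · exact h3
      · exact absurd h3 hM.ne'
    have hreal' : ∀ k, y k = α * x k := fun k => by rw [hreal k, hβ0, add_zero]
    -- a coordinate which is not zero
    obtain ⟨i, hi⟩ : ∃ i, x i ≠ 0 := by
      by_contra hcon
      push Not at hcon
      exact hd (by rw [hcon 0, hcon 1, sub_zero])
    have hnx := xsol_norm hm π i
    have hny := xsol_norm hm τ i
    rw [← hx] at hnx
    rw [← hy] at hny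
    have hαabs : |α| ^ 3 = 1 := by
      have h2 : ∀ j, m j * (y j - y i) / |y j - y i| ^ 3
          = (α / |α| ^ 3) * (m j * (x j - x i) / |x j - x i| ^ 3) := by
        intro j
        rw [hreal' j, hreal' i, ← mul_sub, abs_mul, mul_pow]
        by_cases h3 : |x j - x i| = 0
        · rw [h3]; simp
        · have h4 : |α| ≠ 0 := abs_ne_zero.2 hα0
          field_simp
      rw [Finset.sum_congr rfl fun j _ => h2 j, ← Finset.mul_sum, hnx, hreal' i] at hny
      have h4 : |α| ^ 3 ≠ 0 := pow_ne_zero 3 (abs_ne_zero.2 hα0)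
      have h5 : (α * x i) * (|α| ^ 3 - 1) = 0 := by
        have h6 : α / |α| ^ 3 * -x i * |α| ^ 3 = -(α * x i) := by field_simp
        have h7 : α / |α| ^ 3 * -x i * |α| ^ 3 = -(α * x i) * |α| ^ 3 := by rw [hny]
        rw [h6] at h7
        linear_combination h7
      rcases mul_eq_zero.1 h5 with h6 | h6
      · rcases mul_eq_zero.1 h6 with h7 | h7
        · exact absurd h7 hα0
        · exact absurd h7 hi
      · linarith
    have hα1 : |α| = 1 := (pow_eq_one_iff_of_nonneg (abs_nonneg _) (by norm_num)).1 hαabs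
    rcases (abs_eq (by norm_num : (0 : ℝ) ≤ 1)).1 hα1 with h2 | h2
    · left
      have h3 : y = x := by funext k; rw [hreal' k, h2, one_mul]
      have h4 := xsol_mono hm τ
      rw [← hy, h3] at h4
      exact perm_unique h4 (xsol_mono hm π)
    · right
      have h3 : y = fun k => -x k := by funext k; rw [hreal' k, h2]; ring
      have h4 := xsol_mono hm τ
      rw [← hy, h3] at h4
      exact perm_unique h4 (neg_mono (xsol_mono hm π))
  · rintro (rfl | rfl)
    · rfl
    · have h1 := xsol_unique hm (normEq_neg (xsol_norm hm π)) (neg_mono (xsol_mono hm π))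
      rw [colClass, colClass, mk_eq_iff, ← h1]
      exact ⟨-1, 0, by norm_num, fun k => by simp [toC]⟩

/-- the classes of collinear central configurations -/
def collinearClasses (m : Fin 4 → ℝ) : Set (Quotient shape) :=
  {c | ∃ q, IsCC m q ∧ OnLine q ∧ c = Quotient.mk shape q}

theorem collinear_eq {m : Fin 4 → ℝ} (hm : ∀ i, 0 < m i) :
    collinearClasses m = Set.range (colClass hm) := by
  ext c
  constructor
  · rintro ⟨q, h1, h2, rfl⟩
    obtain ⟨x, hinj, hnorm, hsim⟩ := exists_norm hm h1 h2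
    obtain ⟨π, hπ⟩ := exists_perm hinj
    refine ⟨π, ?_⟩
    rw [colClass, ← xsol_unique hm hnorm hπ, mk_eq_iff]
    exact similar_symm hsim
  · rintro ⟨π, rfl⟩
    exact ⟨toC (xsol hm π), isCC_toC (inj_of_mono (xsol_mono hm π)) (xsol_norm hm π),
      onLine_toC _, rfl⟩

theorem rev_ne : (Fin.revPerm : Equiv.Perm (Fin 4)) ≠ 1 := by decide +kernel

/-- Moulton's theorem for four bodies -/
theorem moulton {m : Fin 4 → ℝ} (hm : ∀ i, 0 < m i) :
    (collinearClasses m).Finite ∧ (collinearClasses m).ncard = 12 := by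
  classical
  rw [collinear_eq hm]
  refine ⟨Set.finite_range _, ?_⟩
  have h1 : Set.range (colClass hm) = ((univ.image (colClass hm) : Finset (Quotient shape)) :
      Set (Quotient shape)) := by
    rw [Finset.coe_image, Finset.coe_univ, Set.image_univ]
  rw [h1, Set.ncard_coe_finset]
  have h2 := Finset.card_eq_sum_card_image (colClass hm) (univ : Finset (Equiv.Perm (Fin 4)))
  have h3 : ∀ b ∈ univ.image (colClass hm),
      (univ.filter (fun τ => colClass hm τ = b)).card = 2 := by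
    intro b hb
    obtain ⟨π, -, rfl⟩ := Finset.mem_image.1 hb
    have h4 : univ.filter (fun τ => colClass hm τ = colClass hm π) = {π, π * Fin.revPerm} := by
      ext τ
      rw [Finset.mem_filter, eq_comm, colClass_eq_iff]
      simp
    rw [h4, Finset.card_pair]
    intro h
    exact rev_ne (mul_left_cancel (a := π) (by rw [mul_one]; exact h.symm))
  rw [Finset.sum_congr rfl h3, Finset.sum_const, smul_eq_mul, Finset.card_univ,
    Fintype.card_perm, Fintype.card_fin] at h2
  have h5 : Nat.factorial 4 = 24 := by decide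
  omega

end FourBody
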