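import Pool.Agent.H39.FB.Rhombus

set_option autoImplicit false

namespace FourBody

open Finset

/-! ### reflection -/

/-- mirror image of a configuration -/
noncomputable def cj (q : Fin 4 → ℂ) : Fin 4 → ℂ := fun k => (starRingEnd ℂ) (q k)

theorem isCC_cj {m : Fin 4 → ℝ} {q : Fin 4 → ℂ} (hq : IsCC m q) : IsCC m (cj q) := by
  obtain ⟨hinj, lam, hl⟩ := hq
  refine ⟨fun i j hij => hinj ((starRingEnd ℂ).injective hij), lam, fun i => ?_⟩
  have h := congrArg (starRingEnd ℂ) (hl i)
  rw [map_sum, map_mul, map_sub, map_div₀, map_sum, Complex.conj_ofReal, Complex.conj_ofReal] at h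
  have h1 : ∀ j, (starRingEnd ℂ) ((m j : ℂ) * q j) = (m j : ℂ) * cj q j := fun j => by
    rw [map_mul, Complex.conj_ofReal]; rfl
  have h2 : ∀ j, (starRingEnd ℂ) ((m j : ℂ) * (q j - q i) / ((‖q j - q i‖ ^ 3 : ℝ) : ℂ))
      = (m j : ℂ) * (cj q j - cj q i) / ((‖cj q j - cj q i‖ ^ 3 : ℝ) : ℂ) := fun j => by
    rw [map_div₀, map_mul, Complex.conj_ofReal, Complex.conj_ofReal, map_sub]
    have : ‖cj q j - cj q i‖ = ‖q j - q i‖ := by
      rw [← RCLike.norm_conj (q j - q i), map_sub]; rfl
    rw [this]; rfl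
  rw [Finset.sum_congr rfl fun j _ => h2 j, Finset.sum_congr rfl fun j _ => h1 j] at h
  exact h

theorem onLine_cj {q : Fin 4 → ℂ} (hq : OnLine q) : OnLine (cj q) := by
  obtain ⟨a, b, h⟩ := hq
  refine ⟨(starRingEnd ℂ) a, (starRingEnd ℂ) b, fun k => ?_⟩
  obtain ⟨t, ht⟩ := h k
  exact ⟨t, by simp [cj, ht]⟩

theorem cj_cj (q : Fin 4 → ℂ) : cj (cj q) = q := by
  funext k; simp [cj]

/-- mirror image of a class -/
noncomputable def cjQ : Quotient shape → Quotient shape :=
  Quotient.map cj (by
    rintro q q' ⟨a, b, ha, h⟩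
    refine ⟨(starRingEnd ℂ) a, (starRingEnd ℂ) b, ?_, fun k => ?_⟩
    · intro h0; exact ha (by simpa using h0)
    · simp [cj, h k])

theorem cjQ_cjQ (x : Quotient shape) : cjQ (cjQ x) = x := by
  induction x using Quotient.inductionOn with
  | h q =>
    change Quotient.mk shape (cj (cj q)) = _
    rw [cj_cj]

theorem cjQ_mem {m : Fin 4 → ℝ} {x : Quotient shape} (hx : x ∈ nonCollinearClasses m) :
    cjQ x ∈ nonCollinearClasses m := by
  obtain ⟨q, h1, h2, rfl⟩ := hx
  refine ⟨cj q, isCC_cj h1, fun h => h2 ?_, rfl⟩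
  rw [← cj_cj q]; exact onLine_cj h

theorem cj_not_similar {q : Fin 4 → ℂ} (hinj : Function.Injective q) (hl : ¬ OnLine q) :
    ¬ Similar q (cj q) := by
  rintro ⟨a, b, -, h⟩
  apply hl
  have hw : q 1 - q 0 ≠ 0 := sub_ne_zero.2 fun h => (by decide : (1 : Fin 4) ≠ 0) (hinj h)
  refine ⟨q 1 - q 0, q 0, fun k => ?_⟩
  -- the quotient `z / w` is real
  set w := q 1 - q 0 with hwdef
  set z := q k - q 0 with hz
  have e1 : (starRingEnd ℂ) w = a * w := by
    have h1 := h 1
    have h0 := h 0
    simp only [cj] at h1 h0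
    rw [hwdef, map_sub, h1, h0]; ring
  have e2 : (starRingEnd ℂ) z = a * z := by
    have h1 := h k
    have h0 := h 0
    simp only [cj] at h1 h0
    rw [hz, map_sub, h1, h0]; ring
  have e3 : (starRingEnd ℂ) (z / w) = z / w := by
    rw [map_div₀, e1, e2]
    have ha : a ≠ 0 := by
      rintro rfl
      rw [zero_mul] at e1
      exact hw (by simpa using e1)
    rw [mul_div_mul_left _ _ ha]
  obtain ⟨t, ht⟩ := Complex.conj_eq_iff_real.1 e3
  refine ⟨t, ?_⟩
  rw [← ht, mul_div_cancel₀ _ hw, hz]; ring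

theorem card_even {m : Fin 4 → ℝ} (hfin : (nonCollinearClasses m).Finite) :
    Even (nonCollinearClasses m).ncard := by
  classical
  rw [Set.ncard_eq_toFinset_card _ hfin]
  have h1 : ∑ x ∈ hfin.toFinset, (1 : ZMod 2) = 0 := by
    refine Finset.sum_involution (fun x _ => cjQ x) ?_ ?_ ?_ ?_
    · intro x _; decide
    · intro x hx _
      rw [Set.Finite.mem_toFinset] at hx
      obtain ⟨q, h1, h2, rfl⟩ := hx
      intro h
      have h3 : Quotient.mk shape (cj q) = Quotient.mk shape q := h
      rw [mk_eq_iff] at h3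
      exact cj_not_similar h1.1 h2 (similar_symm h3)
    · intro x hx
      rw [Set.Finite.mem_toFinset] at hx ⊢
      exact cjQ_mem hx
    · intro x _; exact cjQ_cjQ x
  rw [Finset.sum_const, nsmul_eq_mul, mul_one] at h1
  exact (ZMod.natCast_eq_zero_iff_even).1 h1

/-! ### three equal masses -/

/-- the cyclic permutation `0 → 1 → 2 → 0` -/
def rot3 : Equiv.Perm (Fin 4) := Equiv.swap 0 1 * Equiv.swap 1 2

theorem rot3_val : rot3 0 = 1 ∧ rot3 1 = 2 ∧ rot3 2 = 0 ∧ rot3 3 = 3 := by decide +kernel

theorem rot3_mem : rot3⁻¹ ∈ blk B31 := by decide +kernel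

theorem rot3_ne : rot3⁻¹ ≠ 1 := by decide +kernel

theorem three_equal {m : Fin 4 → ℝ} (hm : ∀ i, 0 < m i) (h01 : m 0 = m 1) (h12 : m 1 = m 2)
    (hfin : (nonCollinearClasses m).Finite) :
    (nonCollinearClasses m).ncard % 6 = 2 := by
  classical
  obtain ⟨w, hw⟩ := exists_omega
  have hw2 : (w ^ 2) ^ 2 + w ^ 2 + 1 = 0 := by linear_combination (w ^ 2 - w + 1) * hw
  rw [Set.ncard_eq_toFinset_card _ hfin]
  have hmB : ∀ σ : Equiv.Perm (Fin 4), σ ∈ blk B31 → ∀ i, m (σ i) = m i := by
    intro σ hσ i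
    have h1 := hσ i
    have key : ∀ a b : Fin 4, B31 a = B31 b → m a = m b := by
      intro a b hab
      rcases fin4 a with rfl | rfl | rfl | rfl <;> rcases fin4 b with rfl | rfl | rfl | rfl <;>
        first
          | rfl
          | exact h01
          | exact h01.symm
          | exact h12
          | exact h12.symm
          | exact h01.trans h12
          | exact (h01.trans h12).symm
          | exact absurd hab (by decide)
    exact key _ _ h1
  obtain ⟨k, hk⟩ := card_mod (G := blk B31) hfin.toFinset (by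
      intro g x hx
      rw [Set.Finite.mem_toFinset] at hx ⊢
      exact smul_mem (g : Equiv.Perm (Fin 4)) (hmB _ g.2) hx)
    (Quotient.mk shape (E w)) (Quotient.mk shape (E (w ^ 2)))
    (by rw [Ne, mk_eq_iff]; exact E_similar_ne hw)
    (by rw [Set.Finite.mem_toFinset, mk_mem_iff hm]
        exact ⟨E_isCC h01 h12 hw, E_not_onLine hw⟩)
    (by rw [Set.Finite.mem_toFinset, mk_mem_iff hm]
        exact ⟨E_isCC h01 h12 hw2, E_not_onLine hw2⟩)
    (by
      intro x hx
      rw [Set.Finite.mem_toFinset] at hx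
      constructor
      · rintro ⟨g, hg1, hgx⟩
        obtain ⟨q, hcc, hnl, rfl⟩ := hx
        have hinj := hcc.1
        have h1 : Quotient.mk shape (q ∘ ((g : Equiv.Perm (Fin 4))⁻¹ : Equiv.Perm (Fin 4)))
            = Quotient.mk shape q := hgx
        rw [mk_eq_iff] at h1
        obtain ⟨a, b, ha, h2⟩ := similar_symm h1
        have hblk : ∀ i, B31 (((g : Equiv.Perm (Fin 4))⁻¹ : Equiv.Perm (Fin 4)) i) = B31 i :=
          (g⁻¹).2
        have hne : ((g : Equiv.Perm (Fin 4))⁻¹ : Equiv.Perm (Fin 4)) ≠ 1 := by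
          intro h
          apply hg1
          rw [inv_eq_one] at h
          exact Subtype.ext h
        have hfin2 : ∀ c : ℂ, c ^ 2 + c + 1 = 0 → Similar q (E c) →
            Quotient.mk shape q = Quotient.mk shape (E w) ∨
              Quotient.mk shape q = Quotient.mk shape (E (w ^ 2)) := by
          intro c hc hs
          have h5 : (c - w) * (c - w ^ 2) = 0 := by
            linear_combination hc - c * hw + (w - 1) * hw
          rcases mul_eq_zero.1 h5 with h6 | h6
          · left; rw [mk_eq_iff, ← sub_eq_zero.1 h6]; exact hs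
          · right; rw [mk_eq_iff, ← sub_eq_zero.1 h6]; exact hs
        have g0 := h2 0
        have g1 := h2 1
        have g2 := h2 2
        have g3 := h2 3
        simp only [Function.comp] at g0 g1 g2 g3
        rcases cases_B31 _ hblk hne with ⟨c0, c1, c2, c3⟩ | ⟨c0, c1, c2, c3⟩ | ⟨c0, c1, c2, c3⟩ |
            ⟨c0, c1, c2, c3⟩ | ⟨c0, c1, c2, c3⟩ <;> rw [c0] at g0 <;> rw [c1] at g1 <;>
            rw [c2] at g2 <;> rw [c3] at g3
        · exact (no_swap hinj (by decide : (0 : Fin 4) ≠ 1) (by decide : (2 : Fin 4) ≠ 3)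
            g0 g2 g3).elim
        · exact (no_swap hinj (by decide : (1 : Fin 4) ≠ 2) (by decide : (0 : Fin 4) ≠ 3)
            g1 g0 g3).elim
        · exact (no_swap hinj (by decide : (0 : Fin 4) ≠ 2) (by decide : (1 : Fin 4) ≠ 3)
            g0 g1 g3).elim
        · -- q 1 = a q 0 + b, q 2 = a q 1 + b, q 0 = a q 2 + b
          have hc := cyc_similar hinj (by decide : (0 : Fin 4) ≠ 1) (by decide : (0 : Fin 4) ≠ 3)
            g0 g1 g2 g3
          refine hfin2 a hc (similar_symm ⟨q 0 - q 3, q 3,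
            sub_ne_zero.2 fun h => (by decide : (0 : Fin 4) ≠ 3) (hinj h), fun k => ?_⟩)
          rcases fin4 k with rfl | rfl | rfl | rfl
          · rw [E0]; ring
          · rw [E1]; linear_combination g0 - g3
          · rw [E2]; linear_combination g1 - g3 + a * (g0 - g3)
          · rw [E3]; ring
        · -- q 2 = a q 0 + b, q 0 = a q 1 + b, q 1 = a q 2 + b
          have hc := cyc_similar hinj (by decide : (0 : Fin 4) ≠ 2) (by decide : (0 : Fin 4) ≠ 3)
            g0 g2 g1 g3
          have ha3 : a ^ 3 = 1 := by linear_combination (a - 1) * hc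
          have hc2 : (a ^ 2) ^ 2 + a ^ 2 + 1 = 0 := by linear_combination (a ^ 2 - a + 1) * hc
          refine hfin2 (a ^ 2) hc2 (similar_symm ⟨q 0 - q 3, q 3,
            sub_ne_zero.2 fun h => (by decide : (0 : Fin 4) ≠ 3) (hinj h), fun k => ?_⟩)
          rcases fin4 k with rfl | rfl | rfl | rfl
          · rw [E0]; ring
          · rw [E1]; linear_combination g2 - g3 + a * (g0 - g3)
          · rw [E2]; linear_combination g0 - g3 - a * (q 0 - q 3) * ha3
          · rw [E3]; ring
      · intro hx'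
        have hgen : ∀ c : ℂ, c ^ 2 + c + 1 = 0 → ∃ g : blk B31, g ≠ 1 ∧
            g • Quotient.mk shape (E c) = Quotient.mk shape (E c) := by
          intro c hc
          refine ⟨⟨rot3⁻¹, rot3_mem⟩, ?_, ?_⟩
          · intro h
            exact rot3_ne (congrArg (fun g : blk B31 => (g : Equiv.Perm (Fin 4))) h)
          · change Quotient.mk shape (E c ∘ ((rot3⁻¹)⁻¹ : Equiv.Perm (Fin 4)))
              = Quotient.mk shape (E c)
            rw [mk_eq_iff, inv_inv]
            have hc0 : c ≠ 0 := (E_ne hc).2.2.1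
            have hc3 : c ^ 3 = 1 := by linear_combination (c - 1) * hc
            refine similar_symm ⟨c, 0, hc0, fun k => ?_⟩
            simp only [Function.comp]
            rcases fin4 k with rfl | rfl | rfl | rfl
            · rw [rot3_val.1, E0, E1]; ring
            · rw [rot3_val.2.1, E1, E2]; ring
            · rw [rot3_val.2.2.1, E2, E0]; linear_combination -hc3
            · rw [rot3_val.2.2.2, E3]; ring
        rcases hx' with rfl | rfl
        · exact hgen w hw
        · exact hgen (w ^ 2) hw2)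
  rw [hk, card_B31]
  omega

end FourBody
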