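import Pool.Agent.H39.FB.Main

set_option autoImplicit false

namespace FourBody

open Finset

/-- the other two double transpositions -/
def dblB : Equiv.Perm (Fin 4) := Equiv.swap 0 2 * Equiv.swap 1 3

def dblC : Equiv.Perm (Fin 4) := Equiv.swap 0 3 * Equiv.swap 1 2

/-- the classes fixed by `0 ↔ 1`, `2 ↔ 3` are the two mirror images of the rhombus -/
theorem fix_dbl {m : Fin 4 → ℝ} (hm : ∀ i, 0 < m i) (h01 : m 0 = m 1) (h23 : m 2 = m 3)
    {t : ℝ} (ht : 0 < t) (hPhi : Phi (m 0) (m 2) t = 0) {x : Quotient shape}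
    (hx : x ∈ nonCollinearClasses m) :
    dbl • x = x ↔ x = Quotient.mk shape (P (Complex.I * t)) ∨
      x = Quotient.mk shape (P (Complex.I * ((-t : ℝ) : ℂ))) := by
  have hinv : dbl⁻¹ = dbl := by decide +kernel
  constructor
  · intro hgx
    obtain ⟨q, hcc, hnl, rfl⟩ := hx
    have hinj := hcc.1
    have h1 : Quotient.mk shape (q ∘ (dbl⁻¹ : Equiv.Perm (Fin 4))) = Quotient.mk shape q := hgx
    rw [mk_eq_iff, hinv] at h1
    obtain ⟨a, b, ha, h2⟩ := similar_symm h1
    have g0 := h2 0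
    have g1 := h2 1
    have g2 := h2 2
    have g3 := h2 3
    simp only [Function.comp] at g0 g1 g2 g3
    rw [dbl_val.1] at g0
    rw [dbl_val.2.1] at g1
    rw [dbl_val.2.2.1] at g2
    rw [dbl_val.2.2.2] at g3
    have hne01 : q 0 - q 1 ≠ 0 :=
      sub_ne_zero.2 fun h => (by decide : (0 : Fin 4) ≠ 1) (hinj h)
    have ha1 : a = -1 := by
      have h3 : (a + 1) * (q 0 - q 1) = 0 := by linear_combination g1 - g0
      rcases mul_eq_zero.1 h3 with h | h
      · linear_combination h
      · exact absurd h hne01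
    rw [ha1] at g0 g2
    have hu : q 0 - b / 2 ≠ 0 := by
      intro h
      apply hne01
      linear_combination 2 * h - g0
    have hsim : Similar (P ((q 2 - b / 2) / (q 0 - b / 2))) q := by
      refine ⟨q 0 - b / 2, b / 2, hu, fun k => ?_⟩
      rcases fin4 k with rfl | rfl | rfl | rfl
      · rw [P0]; ring
      · rw [P1]; linear_combination g0
      · rw [P2, mul_div_cancel₀ _ hu]; ring
      · rw [P3, mul_neg, mul_div_cancel₀ _ hu]; linear_combination g2
    have hP1 := isCC_similar hm (similar_symm hsim) hcc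
    have hP2 : ¬ OnLine (P ((q 2 - b / 2) / (q 0 - b / 2))) := fun h =>
      hnl (onLine_similar hsim h)
    obtain ⟨u, hu0, huPhi, huc⟩ := P_form hm h01 h23 hP1 hP2
    have hut : u = t := Phi_unique (hm 0) (hm 2) hu0 ht huPhi hPhi
    rcases huc with h | h
    · left
      rw [mk_eq_iff, ← hut, ← h]
      exact similar_symm hsim
    · right
      rw [mk_eq_iff, ← hut, ← h]
      exact similar_symm hsim
  · intro hx'
    have hgen : ∀ c : ℂ, dbl • Quotient.mk shape (P c) = Quotient.mk shape (P c) := by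
      intro c
      rw [smul_mk, hinv, mk_eq_iff]
      refine similar_symm ⟨-1, 0, by norm_num, fun k => ?_⟩
      simp only [Function.comp]
      rcases fin4 k with rfl | rfl | rfl | rfl
      · rw [dbl_val.1, P0, P1]; ring
      · rw [dbl_val.2.1, P0, P1]; ring
      · rw [dbl_val.2.2.1, P2, P3]; ring
      · rw [dbl_val.2.2.2, P2, P3]; ring
    rcases hx' with rfl | rfl
    · exact hgen _
    · exact hgen _

/-- no class is fixed by two different double transpositions -/
theorem no_two {q : Fin 4 → ℂ} (hinj : Function.Injective q) {i j k l : Fin 4} (hij : i ≠ j)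
    (hkj : k ≠ j)
    {a b a' b' : ℂ} (e1 : q j = a * q i + b) (e2 : q i = a * q j + b) (e3 : q l = a * q k + b)
    (f1 : q k = a' * q i + b') (f2 : q i = a' * q k + b') (f3 : q l = a' * q j + b')
    (hik : i ≠ k) : False := by
  have d1 : q i - q j ≠ 0 := sub_ne_zero.2 fun h => hij (hinj h)
  have d2 : q i - q k ≠ 0 := sub_ne_zero.2 fun h => hik (hinj h)
  have ha : a = -1 := by
    have h3 : (a + 1) * (q i - q j) = 0 := by linear_combination e2 - e1
    rcases mul_eq_zero.1 h3 with h | h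
    · linear_combination h
    · exact absurd h d1
  have ha' : a' = -1 := by
    have h3 : (a' + 1) * (q i - q k) = 0 := by linear_combination f2 - f1
    rcases mul_eq_zero.1 h3 with h | h
    · linear_combination h
    · exact absurd h d2
  rw [ha] at e1 e3
  rw [ha'] at f1 f3
  -- `q i + q j = b = q k + q l`, `q i + q k = b' = q j + q l`
  have h : 2 * (q j - q k) = 0 := by linear_combination e1 - e3 - f1 + f3
  have h' : q j - q k = 0 := by
    rcases mul_eq_zero.1 h with h | h
    · norm_num at h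
    · exact h
  exact hkj (hinj (sub_eq_zero.1 h')).symm

/-- permutations preserving the partition `{0,1}, {2,3}` -/
def D4 : Subgroup (Equiv.Perm (Fin 4)) where
  carrier := {σ | ∀ i j, B22 i = B22 j → B22 (σ i) = B22 (σ j)}
  mul_mem' := by
    intro σ τ hσ hτ i j h
    exact hσ _ _ (hτ _ _ h)
  one_mem' := fun i j h => h
  inv_mem' := by
    intro σ hσ
    revert σ
    change ∀ σ : Equiv.Perm (Fin 4), (∀ i j, B22 i = B22 j → B22 (σ i) = B22 (σ j)) →
      (∀ i j, B22 i = B22 j → B22 (σ⁻¹ i) = B22 (σ⁻¹ j))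
    decide +kernel

instance : DecidablePred (· ∈ D4) := fun σ =>
  inferInstanceAs (Decidable (∀ i j, B22 i = B22 j → B22 (σ i) = B22 (σ j)))

theorem card_D4 : Fintype.card D4 = 8 := by decide +kernel

theorem cases_D4 : ∀ h : Equiv.Perm (Fin 4),
    (∀ i j, B22 i = B22 j → B22 (h i) = B22 (h j)) → h ≠ 1 →
    (h 0 = 1 ∧ h 1 = 0 ∧ h 2 = 2 ∧ h 3 = 3) ∨ (h 0 = 0 ∧ h 1 = 1 ∧ h 2 = 3 ∧ h 3 = 2) ∨
      h = dbl ∨ h = dblB ∨ h = dblC ∨ h * h = dbl := by decide +kernel

theorem mem_D4 : dbl ∈ D4 ∧ dblB ∈ D4 ∧ dblC ∈ D4 := by decide +kernel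

theorem ne_D4 : dbl ≠ 1 ∧ dblB ≠ 1 ∧ dblC ≠ 1 := by decide +kernel

theorem inv_D4 : dbl⁻¹ = dbl ∧ dblB⁻¹ = dblB ∧ dblC⁻¹ = dblC := by decide +kernel

theorem dblB_val : dblB 0 = 2 ∧ dblB 1 = 3 ∧ dblB 2 = 0 ∧ dblB 3 = 1 := by decide +kernel

theorem dblC_val : dblC 0 = 3 ∧ dblC 1 = 2 ∧ dblC 2 = 1 ∧ dblC 3 = 0 := by decide +kernel

theorem conjB : Equiv.swap (1 : Fin 4) 2 * dbl * (Equiv.swap (1 : Fin 4) 2)⁻¹ = dblB := by
  decide +kernel

theorem conjC : Equiv.swap (1 : Fin 4) 3 * dbl * (Equiv.swap (1 : Fin 4) 3)⁻¹ = dblC := by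
  decide +kernel

theorem four_equal {m : Fin 4 → ℝ} (hm : ∀ i, 0 < m i) (h01 : m 0 = m 1) (h12 : m 1 = m 2)
    (h23 : m 2 = m 3) (hfin : (nonCollinearClasses m).Finite) :
    (nonCollinearClasses m).ncard % 8 = 6 := by
  classical
  have hall : ∀ i j, m i = m j := by
    have h0 : ∀ i, m i = m 0 := by
      intro i
      rcases fin4 i with rfl | rfl | rfl | rfl
      · rfl
      · exact h01.symm
      · exact (h01.trans h12).symm
      · exact ((h01.trans h12).trans h23).symm
    intro i j; rw [h0 i, h0 j]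
  obtain ⟨t, ht, hPhi⟩ := Phi_exists (hm 0) (hm 2)
  have hCC : IsCC m (P (Complex.I * t)) := P_isCC h01 h23 ht hPhi
  have hsm : ∀ (σ : Equiv.Perm (Fin 4)) (x : Quotient shape), x ∈ nonCollinearClasses m →
      σ • x ∈ nonCollinearClasses m := fun σ x hx => smul_mem σ (fun i => hall _ _) hx
  set X := hfin.toFinset with hX
  have hmX : ∀ x, x ∈ X ↔ x ∈ nonCollinearClasses m := fun x => by
    rw [hX, Set.Finite.mem_toFinset]
  set y := Quotient.mk shape (P (Complex.I * t)) with hy
  set z := Quotient.mk shape (P (Complex.I * ((-t : ℝ) : ℂ))) with hz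
  have hyz : y ≠ z := by rw [Ne, hy, hz, mk_eq_iff]; exact P_similar_ne ht.ne'
  have hyX : y ∈ X := by
    rw [hmX, hy, mk_mem_iff hm]; exact ⟨hCC, P_not_onLine ht.ne'⟩
  have hzX : z ∈ X := by
    have h1 : z = (Equiv.swap (2 : Fin 4) 3) • y := by
      rw [hz, hy, smul_mk, mk_eq_iff]
      refine ⟨1, 0, one_ne_zero, fun k => ?_⟩
      rw [Equiv.swap_inv]
      simp only [Function.comp]
      rcases fin4 k with rfl | rfl | rfl | rfl
      · rw [show (Equiv.swap (2 : Fin 4) 3) 0 = 0 by decide, P0, P0]; ring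
      · rw [show (Equiv.swap (2 : Fin 4) 3) 1 = 1 by decide, P1, P1]; ring
      · rw [show (Equiv.swap (2 : Fin 4) 3) 2 = 3 by decide, P2, P3]; push_cast; ring
      · rw [show (Equiv.swap (2 : Fin 4) 3) 3 = 2 by decide, P3, P2]; push_cast; ring
    rw [h1, hmX]
    exact hsm _ _ ((hmX _).1 hyX)
  -- the sets of classes fixed by the double transpositions
  have hFa : X.filter (fun x => dbl • x = x) = {y, z} := by
    ext x
    rw [Finset.mem_filter, hmX]
    constructor
    · rintro ⟨h1, h2⟩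
      rw [Finset.mem_insert, Finset.mem_singleton]
      exact (fix_dbl hm h01 h23 ht hPhi h1).1 h2
    · intro h
      have h' : x = y ∨ x = z := by
        rwa [Finset.mem_insert, Finset.mem_singleton] at h
      have hx : x ∈ nonCollinearClasses m := by
        rcases h' with rfl | rfl
        · exact (hmX _).1 hyX
        · exact (hmX _).1 hzX
      exact ⟨hx, (fix_dbl hm h01 h23 ht hPhi hx).2 h'⟩
  have hca : (X.filter (fun x => dbl • x = x)).card = 2 := by
    rw [hFa, Finset.card_pair hyz]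
  have hconj : ∀ (g b : Equiv.Perm (Fin 4)), g * dbl * g⁻¹ = b →
      (X.filter (fun x => b • x = x)).card = 2 := by
    intro g b hgb
    rw [← hca]
    refine Finset.card_nbij' (fun x => g⁻¹ • x) (fun x => g • x) ?_ ?_ ?_ ?_
    · intro x hx
      simp only [Finset.coe_filter, Set.mem_ofPred_eq, hmX] at hx ⊢
      refine ⟨hsm _ _ hx.1, ?_⟩
      have h1 : dbl = g⁻¹ * b * g := by rw [← hgb]; group
      rw [h1, mul_smul, mul_smul, smul_inv_smul, hx.2]
    · intro x hx
      simp only [Finset.coe_filter, Set.mem_ofPred_eq, hmX] at hx ⊢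
      refine ⟨hsm _ _ hx.1, ?_⟩
      rw [← hgb, mul_smul, mul_smul, inv_smul_smul, hx.2]
    · intro x _; simp
    · intro x _; simp
  have hcb := hconj _ _ conjB
  have hcc := hconj _ _ conjC
  -- data of a fixed class
  have hdata : ∀ (h : Equiv.Perm (Fin 4)) (q : Fin 4 → ℂ), h⁻¹ = h →
      h • (Quotient.mk shape q) = Quotient.mk shape q →
      ∃ a b : ℂ, ∀ k, q (h k) = a * q k + b := by
    intro h q hinv he
    rw [smul_mk, mk_eq_iff, hinv] at he
    obtain ⟨a, b, -, h2⟩ := similar_symm he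
    exact ⟨a, b, h2⟩
  have hab : ∀ x ∈ nonCollinearClasses m, dbl • x = x → dblB • x = x → False := by
    rintro x ⟨q, h1, h2, rfl⟩ ha hb
    obtain ⟨a, b, e⟩ := hdata _ _ inv_D4.1 ha
    obtain ⟨a', b', f⟩ := hdata _ _ inv_D4.2.1 hb
    have e0 := e 0
    have e1 := e 1
    have e2 := e 2
    have f0 := f 0
    have f2 := f 2
    have f1 := f 1
    rw [dbl_val.1] at e0
    rw [dbl_val.2.1] at e1
    rw [dbl_val.2.2.1] at e2
    rw [dblB_val.1] at f0
    rw [dblB_val.2.2.1] at f2
    rw [dblB_val.2.1] at f1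
    exact no_two h1.1 (by decide : (0 : Fin 4) ≠ 1) (by decide : (2 : Fin 4) ≠ 1) e0 e1 e2 f0 f2 f1
      (by decide)
  have hac : ∀ x ∈ nonCollinearClasses m, dbl • x = x → dblC • x = x → False := by
    rintro x ⟨q, h1, h2, rfl⟩ ha hb
    obtain ⟨a, b, e⟩ := hdata _ _ inv_D4.1 ha
    obtain ⟨a', b', f⟩ := hdata _ _ inv_D4.2.2 hb
    have e0 := e 0
    have e1 := e 1
    have e3 := e 3
    have f0 := f 0
    have f3 := f 3
    have f1 := f 1
    rw [dbl_val.1] at e0
    rw [dbl_val.2.1] at e1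
    rw [dbl_val.2.2.2] at e3
    rw [dblC_val.1] at f0
    rw [dblC_val.2.2.2] at f3
    rw [dblC_val.2.1] at f1
    exact no_two h1.1 (by decide : (0 : Fin 4) ≠ 1) (by decide : (3 : Fin 4) ≠ 1) e0 e1 e3 f0 f3 f1
      (by decide)
  have hbc : ∀ x ∈ nonCollinearClasses m, dblB • x = x → dblC • x = x → False := by
    rintro x ⟨q, h1, h2, rfl⟩ ha hb
    obtain ⟨a, b, e⟩ := hdata _ _ inv_D4.2.1 ha
    obtain ⟨a', b', f⟩ := hdata _ _ inv_D4.2.2 hb
    have e0 := e 0
    have e2 := e 2
    have e3 := e 3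
    have f0 := f 0
    have f3 := f 3
    have f2 := f 2
    rw [dblB_val.1] at e0
    rw [dblB_val.2.2.1] at e2
    rw [dblB_val.2.2.2] at e3
    rw [dblC_val.1] at f0
    rw [dblC_val.2.2.2] at f3
    rw [dblC_val.2.2.1] at f2
    exact no_two h1.1 (by decide : (0 : Fin 4) ≠ 2) (by decide : (3 : Fin 4) ≠ 2) e0 e2 e3 f0 f3 f2
      (by decide)
  set F := X.filter (fun x => dbl • x = x) ∪ (X.filter (fun x => dblB • x = x) ∪
    X.filter (fun x => dblC • x = x)) with hF
  have hFcard : F.card = 6 := by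
    rw [hF, Finset.card_union_of_disjoint, Finset.card_union_of_disjoint, hca, hcb, hcc]
    · rw [Finset.disjoint_left]
      intro x hx hx'
      rw [Finset.mem_filter, hmX] at hx hx'
      exact hbc x hx.1 hx.2 hx'.2
    · rw [Finset.disjoint_left]
      intro x hx hx'
      rw [Finset.mem_union, Finset.mem_filter, Finset.mem_filter, hmX] at hx'
      rw [Finset.mem_filter, hmX] at hx
      rcases hx' with h | h
      · exact hab x hx.1 hx.2 h.2
      · exact hac x hx.1 hx.2 h.2
  have hmF : ∀ x ∈ nonCollinearClasses m, (x ∈ F ↔ ∃ g ∈ D4, g ≠ 1 ∧ g • x = x) := by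
    intro x hx
    rw [hF, Finset.mem_union, Finset.mem_union, Finset.mem_filter, Finset.mem_filter,
      Finset.mem_filter, hmX]
    constructor
    · rintro (h | h | h)
      · exact ⟨dbl, mem_D4.1, ne_D4.1, h.2⟩
      · exact ⟨dblB, mem_D4.2.1, ne_D4.2.1, h.2⟩
      · exact ⟨dblC, mem_D4.2.2, ne_D4.2.2, h.2⟩
    · rintro ⟨g, hg, hg1, hgx⟩
      rcases cases_D4 g hg hg1 with ⟨c0, c1, c2, c3⟩ | ⟨c0, c1, c2, c3⟩ | rfl | rfl | rfl | hgg
      · exfalso
        obtain ⟨q, h1, h2, rfl⟩ := hx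
        have hinv : g⁻¹ = g := by
          have : g * g = 1 := by
            ext k
            rcases fin4 k with rfl | rfl | rfl | rfl
            · rw [Equiv.Perm.mul_apply, c0, c1]; rfl
            · rw [Equiv.Perm.mul_apply, c1, c0]; rfl
            · rw [Equiv.Perm.mul_apply, c2, c2]; rfl
            · rw [Equiv.Perm.mul_apply, c3, c3]; rfl
          exact inv_eq_of_mul_eq_one_right this
        obtain ⟨a, b, e⟩ := hdata _ _ hinv hgx
        have e0 := e 0
        have e2 := e 2
        have e3 := e 3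
        rw [c0] at e0
        rw [c2] at e2
        rw [c3] at e3
        exact no_swap h1.1 (by decide : (0 : Fin 4) ≠ 1) (by decide : (2 : Fin 4) ≠ 3) e0 e2 e3
      · exfalso
        obtain ⟨q, h1, h2, rfl⟩ := hx
        have hinv : g⁻¹ = g := by
          have : g * g = 1 := by
            ext k
            rcases fin4 k with rfl | rfl | rfl | rfl
            · rw [Equiv.Perm.mul_apply, c0, c0]; rfl
            · rw [Equiv.Perm.mul_apply, c1, c1]; rfl
            · rw [Equiv.Perm.mul_apply, c2, c3]; rfl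
            · rw [Equiv.Perm.mul_apply, c3, c2]; rfl
          exact inv_eq_of_mul_eq_one_right this
        obtain ⟨a, b, e⟩ := hdata _ _ hinv hgx
        have e0 := e 0
        have e1 := e 1
        have e2 := e 2
        rw [c0] at e0
        rw [c1] at e1
        rw [c2] at e2
        exact no_swap h1.1 (by decide : (2 : Fin 4) ≠ 3) (by decide : (0 : Fin 4) ≠ 1) e2 e0 e1
      · exact Or.inl ⟨hx, hgx⟩
      · exact Or.inr (Or.inl ⟨hx, hgx⟩)
      · exact Or.inr (Or.inr ⟨hx, hgx⟩)
      · refine Or.inl ⟨hx, ?_⟩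
        rw [← hgg, mul_smul, hgx, hgx]
  have hdvd : Fintype.card D4 ∣ (X \ F).card := by
    refine card_dvd_of_free (G := D4) _ ?_ ?_
    · intro g x hx
      rw [Finset.mem_sdiff, hmX] at hx
      have hgx : g • x ∈ nonCollinearClasses m := hsm (g : Equiv.Perm (Fin 4)) x hx.1
      rw [Finset.mem_sdiff, hmX]
      refine ⟨hgx, fun h => hx.2 ?_⟩
      rw [hmF _ hgx] at h
      rw [hmF _ hx.1]
      obtain ⟨k, hk, hk1, hkx⟩ := h
      refine ⟨(g : Equiv.Perm (Fin 4))⁻¹ * k * g, ?_, ?_, ?_⟩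
      · exact D4.mul_mem (D4.mul_mem (D4.inv_mem g.2) hk) g.2
      · intro h
        apply hk1
        have := congrArg (fun w => (g : Equiv.Perm (Fin 4)) * w * (g : Equiv.Perm (Fin 4))⁻¹) h
        simpa [mul_assoc] using this
      · have h5 : k • ((g : Equiv.Perm (Fin 4)) • x) = (g : Equiv.Perm (Fin 4)) • x := hkx
        rw [mul_smul, mul_smul, h5, inv_smul_smul]
    · intro g x hx hgx
      rw [Finset.mem_sdiff, hmX] at hx
      by_contra hne
      apply hx.2
      rw [hmF _ hx.1]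
      exact ⟨g, g.2, fun h => hne (Subtype.ext h), hgx⟩
  have hsub : F ⊆ X := by
    rw [hF]
    exact Finset.union_subset (Finset.filter_subset _ _)
      (Finset.union_subset (Finset.filter_subset _ _) (Finset.filter_subset _ _))
  have h4 := Finset.card_sdiff_add_card_eq_card hsub
  rw [Set.ncard_eq_toFinset_card _ hfin]
  rw [card_D4] at hdvd
  rw [← hX]
  omega

end FourBody
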