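import Pool.Agent.H39.FB.Col

set_option autoImplicit false

namespace FourBody

open Finset

/-- two commuting involutions acting freely -/
theorem four_dvd {α : Type*} [DecidableEq α] (f g : α → α) (hff : ∀ x, f (f x) = x)
    (hgg : ∀ x, g (g x) = x) (hc : ∀ x, f (g x) = g (f x)) (C : Finset α)
    (hf : ∀ x ∈ C, f x ∈ C) (hg : ∀ x ∈ C, g x ∈ C) (h1 : ∀ x ∈ C, f x ≠ x)
    (h2 : ∀ x ∈ C, g x ≠ x) (h3 : ∀ x ∈ C, f (g x) ≠ x) : 4 ∣ C.card := by
  induction C using Finset.strongInduction with
  | H C ih =>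
    rcases C.eq_empty_or_nonempty with rfl | ⟨x, hx⟩
    · simp
    · have n1 := h1 x hx
      have n2 := h2 x hx
      have n3 := h3 x hx
      have finj : ∀ a b, f a = f b → a = b := fun a b h => by
        rw [← hff a, h, hff]
      have ginj : ∀ a b, g a = g b → a = b := fun a b h => by
        rw [← hgg a, h, hgg]
      have n4 : f x ≠ g x := fun h => n3 (by rw [← h, hff])
      have n5 : f x ≠ f (g x) := fun h => n2 (finj _ _ h).symm
      have n6 : g x ≠ f (g x) := fun h => (h1 _ (hg x hx)) h.symm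
      have hO : ({x, f x, g x, f (g x)} : Finset α) ⊆ C := by
        intro y hy
        simp only [mem_insert, mem_singleton] at hy
        rcases hy with rfl | rfl | rfl | rfl
        · exact hx
        · exact hf _ hx
        · exact hg _ hx
        · exact hf _ (hg _ hx)
      have hcard : ({x, f x, g x, f (g x)} : Finset α).card = 4 := by
        rw [Finset.card_insert_of_notMem, Finset.card_insert_of_notMem,
          Finset.card_insert_of_notMem, Finset.card_singleton]
        · simpa using n6
        · simp only [mem_insert, mem_singleton, not_or]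
          exact ⟨n4, n5⟩
        · simp only [mem_insert, mem_singleton, not_or]
          exact ⟨n1.symm, n2.symm, n3.symm⟩
      have hsub : C \ {x, f x, g x, f (g x)} ⊂ C :=
        Finset.sdiff_ssubset hO ⟨x, by simp⟩
      have key := ih _ hsub ?_ ?_ (fun y hy => h1 y (Finset.mem_sdiff.1 hy).1)
        (fun y hy => h2 y (Finset.mem_sdiff.1 hy).1) (fun y hy => h3 y (Finset.mem_sdiff.1 hy).1)
      · have h4 := Finset.card_sdiff_add_card_eq_card hO
        rw [hcard] at h4
        omega
      · intro y hy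
        rw [Finset.mem_sdiff] at hy ⊢
        refine ⟨hf y hy.1, fun h => hy.2 ?_⟩
        simp only [mem_insert, mem_singleton] at h ⊢
        rcases h with h | h | h | h
        · right; left; rw [← h, hff]
        · left; exact finj _ _ h
        · right; right; right; rw [← h, hff]
        · right; right; left; exact finj _ _ h
      · intro y hy
        rw [Finset.mem_sdiff] at hy ⊢
        refine ⟨hg y hy.1, fun h => hy.2 ?_⟩
        simp only [mem_insert, mem_singleton] at h ⊢
        rcases h with h | h | h | h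
        · right; right; left; rw [← h, hgg]
        · right; right; right; rw [hc, ← h, hgg]
        · left; exact ginj _ _ h
        · right; left
          rw [hc] at h
          exact ginj _ _ h

/-- bodies `2` and `3` lie on the perpendicular bisector of bodies `0` and `1` -/
def IsKite (q : Fin 4 → ℂ) : Prop := ‖q 0 - q 2‖ = ‖q 1 - q 2‖ ∧ ‖q 0 - q 3‖ = ‖q 1 - q 3‖

theorem isKite_similar {q q' : Fin 4 → ℂ} (h : Similar q q') (hq : IsKite q) : IsKite q' := by
  obtain ⟨a, b, -, h⟩ := h
  have h1 : ∀ i j, ‖q' i - q' j‖ = ‖a‖ * ‖q i - q j‖ := by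
    intro i j
    rw [← norm_mul, h i, h j]; congr 1; ring
  obtain ⟨h2, h3⟩ := hq
  exact ⟨by rw [h1, h1, h2], by rw [h1, h1, h3]⟩

theorem kite_of_sym {q : Fin 4 → ℂ} (hinj : Function.Injective q)
    (h : Similar q (cj (q ∘ (Equiv.swap (0 : Fin 4) 1)))) : IsKite q := by
  obtain ⟨a, b, -, h⟩ := h
  have v0 : (Equiv.swap (0 : Fin 4) 1) 0 = 1 := by decide
  have v1 : (Equiv.swap (0 : Fin 4) 1) 1 = 0 := by decide
  have v2 : (Equiv.swap (0 : Fin 4) 1) 2 = 2 := by decide
  have v3 : (Equiv.swap (0 : Fin 4) 1) 3 = 3 := by decide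
  have h0 := h 0
  have h1 := h 1
  have h2 := h 2
  have h3 := h 3
  simp only [cj, Function.comp, v0, v1, v2, v3] at h0 h1 h2 h3
  have hd : q 2 - q 3 ≠ 0 := sub_ne_zero.2 fun h => (by decide : (2 : Fin 4) ≠ 3) (hinj h)
  have hdn : ‖q 2 - q 3‖ ≠ 0 := norm_ne_zero_iff.2 hd
  have e23 : ‖q 2 - q 3‖ = ‖a‖ * ‖q 2 - q 3‖ := by
    rw [← norm_mul, ← RCLike.norm_conj (q 2 - q 3), map_sub, h2, h3]
    congr 1; ring
  have ha : ‖a‖ = 1 := by
    have := mul_right_cancel₀ hdn ((one_mul _).trans e23)
    exact this.symm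
  constructor
  · have : ‖q 1 - q 2‖ = ‖a‖ * ‖q 0 - q 2‖ := by
      rw [← norm_mul, ← RCLike.norm_conj (q 1 - q 2), map_sub, h0, h2]
      congr 1; ring
    rw [this, ha, one_mul]
  · have : ‖q 1 - q 3‖ = ‖a‖ * ‖q 0 - q 3‖ := by
      rw [← norm_mul, ← RCLike.norm_conj (q 1 - q 3), map_sub, h0, h3]
      congr 1; ring
    rw [this, ha, one_mul]

theorem sym_of_kite {q : Fin 4 → ℂ} (hinj : Function.Injective q) (hk : IsKite q) :
    Similar q (cj (q ∘ (Equiv.swap (0 : Fin 4) 1))) := by
  obtain ⟨k2, k3⟩ := hk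
  have v0 : (Equiv.swap (0 : Fin 4) 1) 0 = 1 := by decide
  have v1 : (Equiv.swap (0 : Fin 4) 1) 1 = 0 := by decide
  have v2 : (Equiv.swap (0 : Fin 4) 1) 2 = 2 := by decide
  have v3 : (Equiv.swap (0 : Fin 4) 1) 3 = 3 := by decide
  set s := q 0 - q 2 with hs
  set t := q 1 - q 2 with ht
  set w := q 3 - q 2 with hw
  have hw0 : w ≠ 0 := sub_ne_zero.2 fun h => (by decide : (3 : Fin 4) ≠ 2) (hinj h)
  have hst : s ≠ t := fun h => (by decide : (0 : Fin 4) ≠ 1) (hinj (sub_left_injective h))
  have k3' : ‖s - w‖ = ‖t - w‖ := by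
    have e1 : s - w = q 0 - q 3 := by rw [hs, hw]; ring
    have e2 : t - w = q 1 - q 3 := by rw [ht, hw]; ring
    rw [e1, e2]; exact k3
  have n2 : Complex.normSq s = Complex.normSq t := by
    rw [Complex.normSq_eq_norm_sq, Complex.normSq_eq_norm_sq, k2]
  have n3 : Complex.normSq (s - w) = Complex.normSq (t - w) := by
    rw [Complex.normSq_eq_norm_sq, Complex.normSq_eq_norm_sq, k3']
  rw [Complex.normSq_apply, Complex.normSq_apply] at n2 n3
  simp only [Complex.sub_re, Complex.sub_im] at n3
  -- `t * conj w = conj s * w`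
  have hre : s.re * w.re + s.im * w.im = t.re * w.re + t.im * w.im := by linarith
  have him : (s.im * w.re - s.re * w.im) ^ 2 = (t.im * w.re - t.re * w.im) ^ 2 := by
    have a1 : (s.im * w.re - s.re * w.im) ^ 2
        = (s.re * s.re + s.im * s.im) * (w.re * w.re + w.im * w.im)
          - (s.re * w.re + s.im * w.im) ^ 2 := by ring
    have a2 : (t.im * w.re - t.re * w.im) ^ 2
        = (t.re * t.re + t.im * t.im) * (w.re * w.re + w.im * w.im)
          - (t.re * w.re + t.im * w.im) ^ 2 := by ring
    rw [a1, a2, n2, hre]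
  have key : t * (starRingEnd ℂ) w = (starRingEnd ℂ) s * w := by
    rcases sq_eq_sq_iff_eq_or_eq_neg.1 him with h | h
    · exfalso
      apply hst
      have h5 : s * (starRingEnd ℂ) w = t * (starRingEnd ℂ) w := by
        apply Complex.ext
        · simp only [Complex.mul_re, Complex.conj_re, Complex.conj_im]; linarith
        · simp only [Complex.mul_im, Complex.conj_re, Complex.conj_im]; linarith
      exact mul_right_cancel₀ (by simpa using hw0) h5
    · apply Complex.ext
      · simp only [Complex.mul_re, Complex.conj_re, Complex.conj_im]; linarith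
      · simp only [Complex.mul_im, Complex.conj_re, Complex.conj_im]; linarith
  have key2 : s * (starRingEnd ℂ) w = (starRingEnd ℂ) t * w := by
    have := congrArg (starRingEnd ℂ) key
    rw [map_mul, map_mul, Complex.conj_conj, Complex.conj_conj] at this
    exact this.symm
  have hcw : (starRingEnd ℂ) w ≠ 0 := by simpa using hw0
  -- conj z = conj (q 2) + (conj w / w) * (z - q 2) on the configuration
  refine ⟨(starRingEnd ℂ) w / w, (starRingEnd ℂ) (q 2) - (starRingEnd ℂ) w / w * q 2,
    div_ne_zero hcw hw0, fun k => ?_⟩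
  rcases fin4 k with rfl | rfl | rfl | rfl
  · simp only [cj, Function.comp, v0]
    have e : (starRingEnd ℂ) (q 1) = (starRingEnd ℂ) (q 2) + (starRingEnd ℂ) t := by
      rw [← map_add, ht]; congr 1; ring
    have e' : q 0 = q 2 + s := by rw [hs]; ring
    rw [e, e']
    field_simp
    linear_combination -key2
  · simp only [cj, Function.comp, v1]
    have e : (starRingEnd ℂ) (q 0) = (starRingEnd ℂ) (q 2) + (starRingEnd ℂ) s := by
      rw [← map_add, hs]; congr 1; ring
    have e' : q 1 = q 2 + t := by rw [ht]; ring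
    rw [e, e']
    field_simp
    linear_combination -key
  · simp only [cj, Function.comp, v2]
    ring
  · simp only [cj, Function.comp, v3]
    have e : (starRingEnd ℂ) (q 3) = (starRingEnd ℂ) (q 2) + (starRingEnd ℂ) w := by
      rw [← map_add, hw]; congr 1; ring
    have e' : q 3 = q 2 + w := by rw [hw]; ring
    rw [e, e']
    field_simp
    ring

theorem kite_not_onLine {q : Fin 4 → ℂ} (hinj : Function.Injective q) (hk : IsKite q) :
    ¬ OnLine q := by
  rintro ⟨a, b, h⟩
  choose t ht using h
  have ha : a ≠ 0 := by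
    rintro rfl
    exact (by decide : (0 : Fin 4) ≠ 1) (hinj (by rw [ht 0, ht 1]; ring))
  have tinj : Function.Injective t := fun i j hij => hinj (by rw [ht i, ht j, hij])
  obtain ⟨k2, k3⟩ := hk
  have e : ∀ i j, ‖q i - q j‖ = ‖a‖ * |t i - t j| := by
    intro i j
    have : q i - q j = a * ((t i - t j : ℝ) : ℂ) := by rw [ht i, ht j]; push_cast; ring
    rw [this, norm_mul, Complex.norm_real, Real.norm_eq_abs]
  rw [e, e] at k2 k3
  have hn : ‖a‖ ≠ 0 := norm_ne_zero_iff.2 ha
  have k2' := mul_left_cancel₀ hn k2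
  have k3' := mul_left_cancel₀ hn k3
  have h01 : t 0 - t 1 ≠ 0 := sub_ne_zero.2 fun h => (by decide : (0 : Fin 4) ≠ 1) (tinj h)
  have f2 : t 0 - t 2 = -(t 1 - t 2) := by
    rcases abs_eq_abs.1 k2' with h | h
    · exact absurd (by linarith) h01
    · exact h
  have f3 : t 0 - t 3 = -(t 1 - t 3) := by
    rcases abs_eq_abs.1 k3' with h | h
    · exact absurd (by linarith) h01
    · exact h
  exact (by decide : (2 : Fin 4) ≠ 3) (tinj (by linarith))

/-- the classes of the central configurations which are symmetric about the line through bodies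
`2` and `3` -/
def kiteClasses (m : Fin 4 → ℝ) : Set (Quotient shape) :=
  {c | ∃ q, IsCC m q ∧ IsKite q ∧ c = Quotient.mk shape q}

theorem kite_count {m : Fin 4 → ℝ} (_hm : ∀ i, 0 < m i) (h01 : m 0 = m 1)
    (hfin : (nonCollinearClasses m).Finite) :
    (nonCollinearClasses m).ncard % 4 = (kiteClasses m).ncard % 4 := by
  classical
  have hsub : kiteClasses m ⊆ nonCollinearClasses m := by
    rintro c ⟨q, h1, h2, rfl⟩
    exact ⟨q, h1, kite_not_onLine h1.1 h2, rfl⟩
  have hkfin := hfin.subset hsub
  set σ : Equiv.Perm (Fin 4) := Equiv.swap 0 1 with hσ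
  have hσinv : σ⁻¹ = σ := by rw [hσ]; exact Equiv.swap_inv _ _
  have hmσ : ∀ i, m (σ i) = m i := by
    intro i
    rcases fin4 i with rfl | rfl | rfl | rfl
    · rw [show σ 0 = 1 by rw [hσ]; decide]; exact h01.symm
    · rw [show σ 1 = 0 by rw [hσ]; decide]; exact h01
    · rw [show σ 2 = 2 by rw [hσ]; decide]
    · rw [show σ 3 = 3 by rw [hσ]; decide]
  have hcard : 4 ∣ (hfin.toFinset \ hkfin.toFinset).card := by
    have hmemk : ∀ q : Fin 4 → ℂ, IsCC m q →
        (Quotient.mk shape q ∈ kiteClasses m ↔ IsKite q) := by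
      intro q hq
      constructor
      · rintro ⟨q', h1, h2, h3⟩
        rw [mk_eq_iff] at h3
        exact isKite_similar (similar_symm h3) h2
      · intro h
        exact ⟨q, hq, h, rfl⟩
    have hfσ : ∀ x : Quotient shape, σ • (σ • x) = x := by
      intro x
      rw [← mul_smul, hσ, Equiv.swap_mul_self, one_smul]
    have hcomm : ∀ x : Quotient shape, σ • (cjQ x) = cjQ (σ • x) := by
      intro x
      induction x using Quotient.inductionOn with
      | h q => rfl
    have hsymK : ∀ x : Quotient shape, x ∈ nonCollinearClasses m →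
        (x ∈ kiteClasses m ↔ σ • (cjQ x) = x) := by
      intro x hx
      obtain ⟨q, h1, h2, rfl⟩ := hx
      rw [hmemk q h1]
      have e1 : σ • (cjQ (Quotient.mk shape q)) = Quotient.mk shape (cj (q ∘ σ)) := by
        change Quotient.mk shape (cj q ∘ (σ⁻¹ : Equiv.Perm (Fin 4))) = _
        rw [hσinv]; rfl
      rw [e1, mk_eq_iff]
      constructor
      · intro h; exact similar_symm (sym_of_kite h1.1 h)
      · intro h; exact kite_of_sym h1.1 (similar_symm h)
    refine four_dvd (fun x => σ • x) cjQ hfσ cjQ_cjQ hcomm _ ?_ ?_ ?_ ?_ ?_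
    · intro x hx
      simp only [Finset.mem_sdiff, Set.Finite.mem_toFinset] at hx ⊢
      have h1 : σ • x ∈ nonCollinearClasses m := smul_mem σ hmσ hx.1
      refine ⟨h1, fun h => hx.2 ?_⟩
      rw [hsymK _ h1, ← hcomm, hfσ] at h
      rw [hsymK _ hx.1, hcomm]
      rw [← h, cjQ_cjQ]
    · intro x hx
      simp only [Finset.mem_sdiff, Set.Finite.mem_toFinset] at hx ⊢
      have h1 := cjQ_mem hx.1
      refine ⟨h1, fun h => hx.2 ?_⟩
      rw [hsymK _ h1, cjQ_cjQ] at h
      rw [hsymK _ hx.1, ← h, hfσ]
    · intro x hx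
      simp only [Finset.mem_sdiff, Set.Finite.mem_toFinset] at hx
      obtain ⟨q, h1, h2, rfl⟩ := hx.1
      intro h
      have h3 : Quotient.mk shape (q ∘ (σ⁻¹ : Equiv.Perm (Fin 4))) = Quotient.mk shape q := h
      rw [hσinv, mk_eq_iff] at h3
      obtain ⟨a, b, -, h4⟩ := similar_symm h3
      have g0 := h4 0
      have g2 := h4 2
      have g3 := h4 3
      simp only [Function.comp] at g0 g2 g3
      rw [show σ 0 = 1 by rw [hσ]; decide] at g0
      rw [show σ 2 = 2 by rw [hσ]; decide] at g2
      rw [show σ 3 = 3 by rw [hσ]; decide] at g3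
      exact no_swap h1.1 (by decide : (0 : Fin 4) ≠ 1) (by decide : (2 : Fin 4) ≠ 3) g0 g2 g3
    · intro x hx
      simp only [Finset.mem_sdiff, Set.Finite.mem_toFinset] at hx
      obtain ⟨q, h1, h2, rfl⟩ := hx.1
      intro h
      have h3 : Quotient.mk shape (cj q) = Quotient.mk shape q := h
      rw [mk_eq_iff] at h3
      exact cj_not_similar h1.1 h2 (similar_symm h3)
    · intro x hx h
      simp only [Finset.mem_sdiff, Set.Finite.mem_toFinset] at hx
      exact hx.2 ((hsymK _ hx.1).2 h)
  have hsub' : hkfin.toFinset ⊆ hfin.toFinset := by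
    intro x hx
    rw [Set.Finite.mem_toFinset] at hx ⊢
    exact hsub hx
  have h4 := Finset.card_sdiff_add_card_eq_card hsub'
  rw [Set.ncard_eq_toFinset_card _ hfin, Set.ncard_eq_toFinset_card _ hkfin]
  omega

end FourBody
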