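import Pool.Agent.H39.FB.Main

set_option autoImplicit false

namespace FourBody

theorem kites_mod_four {m : Fin 4 → ℝ} (hm : ∀ i, 0 < m i) (h : m 0 = m 1) :
    (centralClasses m).Infinite ∨
      (centralClasses m).ncard ≡ (kiteClasses m).ncard [MOD 4] := by
  rcases congruences hm with h1 | ⟨-, h1, -⟩
  · exact Or.inl h1
  · exact Or.inr (h1 h)

end FourBody
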