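import Pool.Agent.H39.FB.Kite

set_option autoImplicit false

namespace FourBody

open Finset

/-- The set of classes, up to translation, rotation and scaling (reflections are not used), of
the planar central configurations of four labelled bodies with masses `m`. Its number of elements
is the number `#(4, m, 2)` of the problem. -/
def centralClasses (m : Fin 4 → ℝ) : Set (Quotient shape) :=
  {c | ∃ q, IsCC m q ∧ c = Quotient.mk shape q}

theorem central_eq (m : Fin 4 → ℝ) :
    centralClasses m = collinearClasses m ∪ nonCollinearClasses m := by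
  ext c
  constructor
  · rintro ⟨q, h1, rfl⟩
    by_cases h : OnLine q
    · exact Or.inl ⟨q, h1, h, rfl⟩
    · exact Or.inr ⟨q, h1, h, rfl⟩
  · rintro (⟨q, h1, -, rfl⟩ | ⟨q, h1, -, rfl⟩)
    · exact ⟨q, h1, rfl⟩
    · exact ⟨q, h1, rfl⟩

theorem disj (m : Fin 4 → ℝ) : Disjoint (collinearClasses m) (nonCollinearClasses m) := by
  rw [Set.disjoint_left]
  rintro c ⟨q, -, h2, rfl⟩ ⟨q', -, h3, h4⟩
  rw [mk_eq_iff] at h4
  exact h3 (onLine_similar h4 h2)

theorem card_total {m : Fin 4 → ℝ} (hm : ∀ i, 0 < m i) (hfin : (centralClasses m).Finite) :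
    (nonCollinearClasses m).Finite ∧
      (centralClasses m).ncard = 12 + (nonCollinearClasses m).ncard := by
  have h1 : (nonCollinearClasses m).Finite := by
    refine hfin.subset ?_
    rw [central_eq]; exact Set.subset_union_right
  refine ⟨h1, ?_⟩
  rw [central_eq, Set.ncard_union_eq (disj m) (moulton hm).1 h1, (moulton hm).2]

/-- relabelling of bodies together with masses -/
theorem isCC_relabel {m : Fin 4 → ℝ} (σ : Equiv.Perm (Fin 4))
    {q : Fin 4 → ℂ} (hq : IsCC m q) : IsCC (m ∘ σ) (q ∘ σ) := by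
  obtain ⟨hinj, lam, hl⟩ := hq
  refine ⟨hinj.comp σ.injective, lam, fun i => ?_⟩
  have h1 := hl (σ i)
  have h2 : (∑ j, ((m ∘ σ) j : ℂ) * (q ∘ σ) j) = ∑ j, (m j : ℂ) * q j := by
    rw [← Equiv.sum_comp σ (fun j => (m j : ℂ) * q j)]
    rfl
  have h3 : (∑ j, (m ∘ σ) j) = ∑ j, m j := Equiv.sum_comp σ m
  rw [h2, h3]
  simp only [Function.comp]
  rw [← h1]
  refine Finset.sum_nbij' (fun j => σ j) (fun j => σ.symm j) ?_ ?_ ?_ ?_ ?_
  · intro j hj; simpa using hj
  · intro j hj
    simp only [mem_erase, mem_univ, and_true, ne_eq] at hj ⊢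
    rintro rfl
    exact hj (by simp)
  · intro j _; simp
  · intro j _; simp
  · intro j _; rfl

theorem relabel (m : Fin 4 → ℝ) (σ : Equiv.Perm (Fin 4)) :
    centralClasses (m ∘ σ) = (fun c => σ⁻¹ • c) '' centralClasses m := by
  have key : ∀ (m : Fin 4 → ℝ) (σ : Equiv.Perm (Fin 4)) (c : Quotient shape),
      c ∈ centralClasses m → σ⁻¹ • c ∈ centralClasses (m ∘ σ) := by
    rintro m σ c ⟨q, h1, rfl⟩
    refine ⟨q ∘ σ, isCC_relabel σ h1, ?_⟩
    rw [smul_mk, inv_inv]
  ext c
  constructor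
  · intro h
    refine ⟨σ • c, ?_, inv_smul_smul σ c⟩
    have h1 := key (m ∘ σ) σ⁻¹ c h
    rw [inv_inv] at h1
    have h2 : (m ∘ σ) ∘ (σ⁻¹ : Equiv.Perm (Fin 4)) = m := by funext k; simp
    rwa [h2] at h1
  · rintro ⟨c, h, rfl⟩
    exact key m σ c h

theorem relabel_ncard (m : Fin 4 → ℝ) (σ : Equiv.Perm (Fin 4)) :
    (centralClasses (m ∘ σ)).ncard = (centralClasses m).ncard := by
  rw [relabel]
  exact Set.ncard_image_of_injective _ (MulAction.injective _)

theorem relabel_finite {m : Fin 4 → ℝ} (σ : Equiv.Perm (Fin 4)) (h : (centralClasses m).Finite) :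
    (centralClasses (m ∘ σ)).Finite := by
  rw [relabel]
  exact h.image _

theorem congruences {m : Fin 4 → ℝ} (hm : ∀ i, 0 < m i) :
    (centralClasses m).Infinite ∨
      (Even (centralClasses m).ncard ∧
      (m 0 = m 1 → (centralClasses m).ncard % 4 = (kiteClasses m).ncard % 4) ∧
      ((∃ σ : Equiv.Perm (Fin 4), m (σ 0) = m (σ 1) ∧ m (σ 2) = m (σ 3)) →
        (centralClasses m).ncard % 4 = 2) ∧
      ((∃ σ : Equiv.Perm (Fin 4), m (σ 0) = m (σ 1) ∧ m (σ 1) = m (σ 2)) →
        (centralClasses m).ncard % 6 = 2)) := by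
  by_cases hfin : (centralClasses m).Infinite
  · exact Or.inl hfin
  right
  rw [Set.not_infinite] at hfin
  obtain ⟨h1, h2⟩ := card_total hm hfin
  refine ⟨?_, ?_, ?_, ?_⟩
  · rw [h2]
    exact Even.add (by decide) (card_even h1)
  · intro h
    have := kite_count hm h h1
    rw [h2]
    omega
  · rintro ⟨σ, ha, hb⟩
    have hm' : ∀ i, 0 < (m ∘ σ) i := fun i => hm (σ i)
    obtain ⟨h3, h4⟩ := card_total hm' (relabel_finite σ hfin)
    have h5 := two_pairs hm' ha hb h3
    rw [relabel_ncard] at h4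
    omega
  · rintro ⟨σ, ha, hb⟩
    have hm' : ∀ i, 0 < (m ∘ σ) i := fun i => hm (σ i)
    obtain ⟨h3, h4⟩ := card_total hm' (relabel_finite σ hfin)
    have h5 := three_equal hm' ha hb h3
    rw [relabel_ncard] at h4
    omega

end FourBody
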