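import Pool.Agent.H39.FB.Basic

set_option autoImplicit false

namespace FourBody

open Finset

/-- the function minimised on ordered configurations on the line -/
noncomputable def U (m x : Fin 4 → ℝ) : ℝ :=
  (m 0 * x 0 ^ 2 + m 1 * x 1 ^ 2 + m 2 * x 2 ^ 2 + m 3 * x 3 ^ 2) / 2
    + m 0 * m 1 / (x 1 - x 0) + m 0 * m 2 / (x 2 - x 0) + m 0 * m 3 / (x 3 - x 0)
    + m 1 * m 2 / (x 2 - x 1) + m 1 * m 3 / (x 3 - x 1) + m 2 * m 3 / (x 3 - x 2)

/-- the normalised equations for the order `x 0 < x 1 < x 2 < x 3` -/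
def Crit (m x : Fin 4 → ℝ) : Prop :=
  (m 1 / (x 1 - x 0) ^ 2 + m 2 / (x 2 - x 0) ^ 2 + m 3 / (x 3 - x 0) ^ 2 = -x 0) ∧
  (-(m 0 / (x 1 - x 0) ^ 2) + m 2 / (x 2 - x 1) ^ 2 + m 3 / (x 3 - x 1) ^ 2 = -x 1) ∧
  (-(m 0 / (x 2 - x 0) ^ 2) - m 1 / (x 2 - x 1) ^ 2 + m 3 / (x 3 - x 2) ^ 2 = -x 2) ∧
  (-(m 0 / (x 3 - x 0) ^ 2) - m 1 / (x 3 - x 1) ^ 2 - m 2 / (x 3 - x 2) ^ 2 = -x 3)

def Ord (x : Fin 4 → ℝ) : Prop := x 0 < x 1 ∧ x 1 < x 2 ∧ x 2 < x 3

theorem pair_nonneg {D D' : ℝ} (h : 0 < D) (h' : 0 < D') :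
    0 ≤ (D - D') * (1 / D' ^ 2 - 1 / D ^ 2) := by
  have h1 : (D - D') * (1 / D' ^ 2 - 1 / D ^ 2) = (D - D') ^ 2 * (D + D') / (D' ^ 2 * D ^ 2) := by
    field_simp
    ring
  rw [h1]; positivity

theorem crit_unique {m x y : Fin 4 → ℝ} (hm : ∀ i, 0 < m i) (hx : Ord x) (hy : Ord y)
    (cx : Crit m x) (cy : Crit m y) : x = y := by
  obtain ⟨x01, x12, x23⟩ := hx
  obtain ⟨y01, y12, y23⟩ := hy
  obtain ⟨a0, a1, a2, a3⟩ := cx
  obtain ⟨b0, b1, b2, b3⟩ := cy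
  have m0 := hm 0
  have m1 := hm 1
  have m2 := hm 2
  have m3 := hm 3
  have p01 := pair_nonneg (show 0 < x 1 - x 0 by linarith) (show 0 < y 1 - y 0 by linarith)
  have p02 := pair_nonneg (show 0 < x 2 - x 0 by linarith) (show 0 < y 2 - y 0 by linarith)
  have p03 := pair_nonneg (show 0 < x 3 - x 0 by linarith) (show 0 < y 3 - y 0 by linarith)
  have p12 := pair_nonneg (show 0 < x 2 - x 1 by linarith) (show 0 < y 2 - y 1 by linarith)
  have p13 := pair_nonneg (show 0 < x 3 - x 1 by linarith) (show 0 < y 3 - y 1 by linarith)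
  have p23 := pair_nonneg (show 0 < x 3 - x 2 by linarith) (show 0 < y 3 - y 2 by linarith)
  have q01 := mul_nonneg (mul_pos m0 m1).le p01
  have q02 := mul_nonneg (mul_pos m0 m2).le p02
  have q03 := mul_nonneg (mul_pos m0 m3).le p03
  have q12 := mul_nonneg (mul_pos m1 m2).le p12
  have q13 := mul_nonneg (mul_pos m1 m3).le p13
  have q23 := mul_nonneg (mul_pos m2 m3).le p23
  have key : m 0 * (x 0 - y 0) ^ 2 + m 1 * (x 1 - y 1) ^ 2 + m 2 * (x 2 - y 2) ^ 2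
      + m 3 * (x 3 - y 3) ^ 2
      + m 0 * m 1 * (((x 1 - x 0) - (y 1 - y 0)) * (1 / (y 1 - y 0) ^ 2 - 1 / (x 1 - x 0) ^ 2))
      + m 0 * m 2 * (((x 2 - x 0) - (y 2 - y 0)) * (1 / (y 2 - y 0) ^ 2 - 1 / (x 2 - x 0) ^ 2))
      + m 0 * m 3 * (((x 3 - x 0) - (y 3 - y 0)) * (1 / (y 3 - y 0) ^ 2 - 1 / (x 3 - x 0) ^ 2))
      + m 1 * m 2 * (((x 2 - x 1) - (y 2 - y 1)) * (1 / (y 2 - y 1) ^ 2 - 1 / (x 2 - x 1) ^ 2))
      + m 1 * m 3 * (((x 3 - x 1) - (y 3 - y 1)) * (1 / (y 3 - y 1) ^ 2 - 1 / (x 3 - x 1) ^ 2))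
      + m 2 * m 3 * (((x 3 - x 2) - (y 3 - y 2)) * (1 / (y 3 - y 2) ^ 2 - 1 / (x 3 - x 2) ^ 2))
      = 0 := by
    linear_combination (m 0 * (x 0 - y 0)) * (a0 - b0) + (m 1 * (x 1 - y 1)) * (a1 - b1)
      + (m 2 * (x 2 - y 2)) * (a2 - b2) + (m 3 * (x 3 - y 3)) * (a3 - b3)
  have s0 := mul_nonneg m0.le (sq_nonneg (x 0 - y 0))
  have s1 := mul_nonneg m1.le (sq_nonneg (x 1 - y 1))
  have s2 := mul_nonneg m2.le (sq_nonneg (x 2 - y 2))
  have s3 := mul_nonneg m3.le (sq_nonneg (x 3 - y 3))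
  have fin : ∀ (μ d : ℝ), 0 < μ → μ * d ^ 2 = 0 → d = 0 := by
    intro μ d hμ h
    rcases mul_eq_zero.1 h with h | h
    · exact absurd h hμ.ne'
    · exact pow_eq_zero_iff (two_ne_zero) |>.1 h
  have z0 : x 0 - y 0 = 0 := fin _ _ m0 (by linarith)
  have z1 : x 1 - y 1 = 0 := fin _ _ m1 (by linarith)
  have z2 : x 2 - y 2 = 0 := fin _ _ m2 (by linarith)
  have z3 : x 3 - y 3 = 0 := fin _ _ m3 (by linarith)
  funext k
  fin_cases k
  · exact sub_eq_zero.1 z0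
  · exact sub_eq_zero.1 z1
  · exact sub_eq_zero.1 z2
  · exact sub_eq_zero.1 z3

/-! ### existence -/

theorem U_terms {m x : Fin 4 → ℝ} (hm : ∀ i, 0 < m i) (hx : Ord x) {F : ℝ} (h : U m x ≤ F) :
    (∀ i, m i * x i ^ 2 ≤ 2 * F) ∧ m 0 * m 1 ≤ F * (x 1 - x 0) ∧ m 1 * m 2 ≤ F * (x 2 - x 1) ∧
      m 2 * m 3 ≤ F * (x 3 - x 2) := by
  obtain ⟨x01, x12, x23⟩ := hx
  have m0 := hm 0
  have m1 := hm 1
  have m2 := hm 2
  have m3 := hm 3
  have s0 : 0 ≤ m 0 * x 0 ^ 2 := by positivity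
  have s1 : 0 ≤ m 1 * x 1 ^ 2 := by positivity
  have s2 : 0 ≤ m 2 * x 2 ^ 2 := by positivity
  have s3 : 0 ≤ m 3 * x 3 ^ 2 := by positivity
  have t01 : 0 < m 0 * m 1 / (x 1 - x 0) := div_pos (mul_pos m0 m1) (by linarith)
  have t02 : 0 < m 0 * m 2 / (x 2 - x 0) := div_pos (mul_pos m0 m2) (by linarith)
  have t03 : 0 < m 0 * m 3 / (x 3 - x 0) := div_pos (mul_pos m0 m3) (by linarith)
  have t12 : 0 < m 1 * m 2 / (x 2 - x 1) := div_pos (mul_pos m1 m2) (by linarith)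
  have t13 : 0 < m 1 * m 3 / (x 3 - x 1) := div_pos (mul_pos m1 m3) (by linarith)
  have t23 : 0 < m 2 * m 3 / (x 3 - x 2) := div_pos (mul_pos m2 m3) (by linarith)
  unfold U at h
  refine ⟨fun i => ?_, ?_, ?_, ?_⟩
  · fin_cases i
    · change m 0 * x 0 ^ 2 ≤ 2 * F; linarith
    · change m 1 * x 1 ^ 2 ≤ 2 * F; linarith
    · change m 2 * x 2 ^ 2 ≤ 2 * F; linarith
    · change m 3 * x 3 ^ 2 ≤ 2 * F; linarith
  · have : m 0 * m 1 / (x 1 - x 0) ≤ F := by linarith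
    rwa [div_le_iff₀ (by linarith)] at this
  · have : m 1 * m 2 / (x 2 - x 1) ≤ F := by linarith
    rwa [div_le_iff₀ (by linarith)] at this
  · have : m 2 * m 3 / (x 3 - x 2) ≤ F := by linarith
    rwa [div_le_iff₀ (by linarith)] at this

theorem exists_min {m : Fin 4 → ℝ} (hm : ∀ i, 0 < m i) :
    ∃ x : Fin 4 → ℝ, Ord x ∧ ∀ y, Ord y → U m x ≤ U m y := by
  have m0 := hm 0
  have m1 := hm 1
  have m2 := hm 2
  have m3 := hm 3
  set xs : Fin 4 → ℝ := ![0, 1, 2, 3] with hxs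
  have hord : Ord xs := by
    refine ⟨?_, ?_, ?_⟩ <;> simp [hxs]
    norm_num
  set F := U m xs with hF
  obtain ⟨hq, g0, g1, g2⟩ := U_terms hm hord (le_refl F)
  have hFpos : 0 < F := by
    have h1 : (xs 1 - xs 0 : ℝ) = 1 := by simp [hxs]
    rw [h1, mul_one] at g0
    exact lt_of_lt_of_le (mul_pos m0 m1) g0
  set S : Set (Fin 4 → ℝ) := {x | (∀ i, m i * x i ^ 2 ≤ 2 * F) ∧ m 0 * m 1 ≤ F * (x 1 - x 0) ∧
    m 1 * m 2 ≤ F * (x 2 - x 1) ∧ m 2 * m 3 ≤ F * (x 3 - x 2)} with hS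
  have hSord : ∀ x ∈ S, Ord x := by
    rintro x ⟨-, h1, h2, h3⟩
    refine ⟨?_, ?_, ?_⟩
    · have : 0 < F * (x 1 - x 0) := lt_of_lt_of_le (mul_pos m0 m1) h1
      have := (pos_iff_pos_of_mul_pos this).1 hFpos
      linarith
    · have : 0 < F * (x 2 - x 1) := lt_of_lt_of_le (mul_pos m1 m2) h2
      have := (pos_iff_pos_of_mul_pos this).1 hFpos
      linarith
    · have : 0 < F * (x 3 - x 2) := lt_of_lt_of_le (mul_pos m2 m3) h3
      have := (pos_iff_pos_of_mul_pos this).1 hFpos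
      linarith
  have hclosed : IsClosed S := by
    have e : S = (⋂ i, {x : Fin 4 → ℝ | m i * x i ^ 2 ≤ 2 * F}) ∩
        ({x | m 0 * m 1 ≤ F * (x 1 - x 0)} ∩ ({x | m 1 * m 2 ≤ F * (x 2 - x 1)} ∩
          {x | m 2 * m 3 ≤ F * (x 3 - x 2)})) := by
      ext x; simp [hS]
    rw [e]
    refine IsClosed.inter (isClosed_iInter fun i => isClosed_le (by fun_prop) (by fun_prop)) ?_
    refine IsClosed.inter (isClosed_le (by fun_prop) (by fun_prop)) ?_
    exact IsClosed.inter (isClosed_le (by fun_prop) (by fun_prop))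
      (isClosed_le (by fun_prop) (by fun_prop))
  have hbox : S ⊆ Set.pi Set.univ (fun i => Set.Icc (-Real.sqrt (2 * F / m i))
      (Real.sqrt (2 * F / m i))) := by
    rintro x ⟨h1, -⟩ i -
    have h2 : x i ^ 2 ≤ 2 * F / m i := by
      rw [le_div_iff₀ (hm i)]; linarith [h1 i]
    have h3 : |x i| ≤ Real.sqrt (2 * F / m i) := Real.abs_le_sqrt h2
    exact abs_le.1 h3
  have hcomp : IsCompact S :=
    (isCompact_univ_pi fun i => isCompact_Icc).of_isClosed_subset hclosed hbox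
  have hcont : ContinuousOn (U m) S := by
    intro x hx
    obtain ⟨x01, x12, x23⟩ := hSord x hx
    apply ContinuousAt.continuousWithinAt
    unfold U
    have n01 : x 1 - x 0 ≠ 0 := by linarith
    have n02 : x 2 - x 0 ≠ 0 := by linarith
    have n03 : x 3 - x 0 ≠ 0 := by linarith
    have n12 : x 2 - x 1 ≠ 0 := by linarith
    have n13 : x 3 - x 1 ≠ 0 := by linarith
    have n23 : x 3 - x 2 ≠ 0 := by linarith
    fun_prop (disch := assumption)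
  obtain ⟨x, hxS, hmin⟩ := hcomp.exists_isMinOn ⟨xs, hq, g0, g1, g2⟩ hcont
  refine ⟨x, hSord x hxS, fun y hy => ?_⟩
  by_cases h : U m y ≤ F
  · exact hmin (U_terms hm hy h)
  · have h1 : U m x ≤ U m xs := hmin ⟨hq, g0, g1, g2⟩
    linarith

theorem hd1 (c p s : ℝ) (h : p - s ≠ 0) :
    HasDerivAt (fun s => c / (p - s)) (c / (p - s) ^ 2) s := by
  have h1 : HasDerivAt (fun s : ℝ => p - s) (-1) s := by
    simpa using (hasDerivAt_id s).const_sub p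
  have h2 := (hasDerivAt_const s c).div h1 h
  have h3 : c / (p - s) ^ 2 = (0 * (p - s) - c * -1) / (p - s) ^ 2 := by ring
  rw [h3]
  exact h2

theorem hd2 (c p s : ℝ) (h : s - p ≠ 0) :
    HasDerivAt (fun s => c / (s - p)) (-(c / (s - p) ^ 2)) s := by
  have h1 : HasDerivAt (fun s : ℝ => s - p) 1 s := by
    simpa using (hasDerivAt_id s).sub_const p
  have h2 := (hasDerivAt_const s c).div h1 h
  have h3 : -(c / (s - p) ^ 2) = (0 * (s - p) - c * 1) / (s - p) ^ 2 := by ring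
  rw [h3]
  exact h2

theorem hd0 (c s : ℝ) : HasDerivAt (fun s => c * s ^ 2 / 2) (c * s) s := by
  have h2 := ((hasDerivAt_pow 2 s).const_mul c).div_const 2
  have h3 : c * s = c * (((2 : ℕ) : ℝ) * s ^ (2 - 1)) / 2 := by push_cast; ring
  rw [h3]
  exact h2

theorem exists_crit {m : Fin 4 → ℝ} (hm : ∀ i, 0 < m i) : ∃ x, Ord x ∧ Crit m x := by
  obtain ⟨x, hx, hmin⟩ := exists_min hm
  obtain ⟨x01, x12, x23⟩ := hx
  have n01 : x 1 - x 0 ≠ 0 := by linarith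
  have n02 : x 2 - x 0 ≠ 0 := by linarith
  have n03 : x 3 - x 0 ≠ 0 := by linarith
  have n12 : x 2 - x 1 ≠ 0 := by linarith
  have n13 : x 3 - x 1 ≠ 0 := by linarith
  have n23 : x 3 - x 2 ≠ 0 := by linarith
  have hloc : ∀ k : Fin 4, (∀ᶠ s in nhds (x k), Ord (Function.update x k s)) →
      IsLocalMin (fun s => U m (Function.update x k s)) (x k) := by
    intro k hk
    filter_upwards [hk] with s hs
    have := hmin _ hs
    simpa using this
  have canc : ∀ (μ A B : ℝ), 0 < μ → μ * A = μ * B → A = B := fun μ A B hμ h =>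
    mul_left_cancel₀ hμ.ne' h
  refine ⟨x, ⟨x01, x12, x23⟩, ?_, ?_, ?_, ?_⟩
  · have h1 := hloc 0 (by
      filter_upwards [eventually_lt_nhds x01] with s hs
      refine ⟨?_, ?_, ?_⟩ <;> simpa [Function.update] )
    have h2 : HasDerivAt (fun s => U m (Function.update x 0 s))
        (m 0 * x 0 + m 0 * m 1 / (x 1 - x 0) ^ 2 + m 0 * m 2 / (x 2 - x 0) ^ 2
          + m 0 * m 3 / (x 3 - x 0) ^ 2) (x 0) := by
      have h3 := (((hd0 (m 0) (x 0)).add (hd1 (m 0 * m 1) (x 1) (x 0) n01)).add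
        (hd1 (m 0 * m 2) (x 2) (x 0) n02)).add (hd1 (m 0 * m 3) (x 3) (x 0) n03)
      have h4 := h3.add_const ((m 1 * x 1 ^ 2 + m 2 * x 2 ^ 2 + m 3 * x 3 ^ 2) / 2
        + m 1 * m 2 / (x 2 - x 1) + m 1 * m 3 / (x 3 - x 1) + m 2 * m 3 / (x 3 - x 2))
      refine h4.congr_of_eventuallyEq (Filter.Eventually.of_forall fun s => ?_)
      simp [U, Function.update]
      ring
    have h5 := h1.hasDerivAt_eq_zero h2
    apply canc (m 0) _ _ (hm 0)
    linear_combination h5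
  · have h1 := hloc 1 (by
      filter_upwards [eventually_lt_nhds x12, eventually_gt_nhds x01] with s hs hs'
      refine ⟨?_, ?_, ?_⟩ <;> simpa [Function.update] )
    have h2 : HasDerivAt (fun s => U m (Function.update x 1 s))
        (m 1 * x 1 + -(m 0 * m 1 / (x 1 - x 0) ^ 2) + m 1 * m 2 / (x 2 - x 1) ^ 2
          + m 1 * m 3 / (x 3 - x 1) ^ 2) (x 1) := by
      have h3 := (((hd0 (m 1) (x 1)).add (hd2 (m 0 * m 1) (x 0) (x 1) n01)).add
        (hd1 (m 1 * m 2) (x 2) (x 1) n12)).add (hd1 (m 1 * m 3) (x 3) (x 1) n13)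
      have h4 := h3.add_const ((m 0 * x 0 ^ 2 + m 2 * x 2 ^ 2 + m 3 * x 3 ^ 2) / 2
        + m 0 * m 2 / (x 2 - x 0) + m 0 * m 3 / (x 3 - x 0) + m 2 * m 3 / (x 3 - x 2))
      refine h4.congr_of_eventuallyEq (Filter.Eventually.of_forall fun s => ?_)
      simp [U, Function.update]
      ring
    have h5 := h1.hasDerivAt_eq_zero h2
    apply canc (m 1) _ _ (hm 1)
    linear_combination h5
  · have h1 := hloc 2 (by
      filter_upwards [eventually_lt_nhds x23, eventually_gt_nhds x12] with s hs hs'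
      refine ⟨?_, ?_, ?_⟩ <;> simpa [Function.update] )
    have h2 : HasDerivAt (fun s => U m (Function.update x 2 s))
        (m 2 * x 2 + -(m 0 * m 2 / (x 2 - x 0) ^ 2) + -(m 1 * m 2 / (x 2 - x 1) ^ 2)
          + m 2 * m 3 / (x 3 - x 2) ^ 2) (x 2) := by
      have h3 := (((hd0 (m 2) (x 2)).add (hd2 (m 0 * m 2) (x 0) (x 2) n02)).add
        (hd2 (m 1 * m 2) (x 1) (x 2) n12)).add (hd1 (m 2 * m 3) (x 3) (x 2) n23)
      have h4 := h3.add_const ((m 0 * x 0 ^ 2 + m 1 * x 1 ^ 2 + m 3 * x 3 ^ 2) / 2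
        + m 0 * m 1 / (x 1 - x 0) + m 0 * m 3 / (x 3 - x 0) + m 1 * m 3 / (x 3 - x 1))
      refine h4.congr_of_eventuallyEq (Filter.Eventually.of_forall fun s => ?_)
      simp [U, Function.update]
      ring
    have h5 := h1.hasDerivAt_eq_zero h2
    apply canc (m 2) _ _ (hm 2)
    linear_combination h5
  · have h1 := hloc 3 (by
      filter_upwards [eventually_gt_nhds x23] with s hs
      refine ⟨?_, ?_, ?_⟩ <;> simpa [Function.update] )
    have h2 : HasDerivAt (fun s => U m (Function.update x 3 s))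
        (m 3 * x 3 + -(m 0 * m 3 / (x 3 - x 0) ^ 2) + -(m 1 * m 3 / (x 3 - x 1) ^ 2)
          + -(m 2 * m 3 / (x 3 - x 2) ^ 2)) (x 3) := by
      have h3 := (((hd0 (m 3) (x 3)).add (hd2 (m 0 * m 3) (x 0) (x 3) n03)).add
        (hd2 (m 1 * m 3) (x 1) (x 3) n13)).add (hd2 (m 2 * m 3) (x 2) (x 3) n23)
      have h4 := h3.add_const ((m 0 * x 0 ^ 2 + m 1 * x 1 ^ 2 + m 2 * x 2 ^ 2) / 2
        + m 0 * m 1 / (x 1 - x 0) + m 0 * m 2 / (x 2 - x 0) + m 1 * m 2 / (x 2 - x 1))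
      refine h4.congr_of_eventuallyEq (Filter.Eventually.of_forall fun s => ?_)
      simp [U, Function.update]
      ring
    have h5 := h1.hasDerivAt_eq_zero h2
    apply canc (m 3) _ _ (hm 3)
    linear_combination h5

end FourBody
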