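import Pool.Agent.H39.FB.Sym

set_option autoImplicit false

namespace FourBody

open Finset

/-- the configuration `1, -1, c, -c` -/
def P (c : ℂ) : Fin 4 → ℂ := ![1, -1, c, -c]

theorem P0 (c : ℂ) : P c 0 = 1 := rfl
theorem P1 (c : ℂ) : P c 1 = -1 := rfl
theorem P2 (c : ℂ) : P c 2 = c := rfl
theorem P3 (c : ℂ) : P c 3 = -c := rfl

/-- the function whose zero is the ratio of the diagonals of the rhombus -/
noncomputable def Phi (μ ν t : ℝ) : ℝ :=
  ν * (8 - (Real.sqrt (1 + t ^ 2) / t) ^ 3) - μ * (8 - Real.sqrt (1 + t ^ 2) ^ 3)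

theorem Phi_strictMono {μ ν : ℝ} (hμ : 0 < μ) (hν : 0 < ν) {t u : ℝ} (ht : 0 < t) (htu : t < u) :
    Phi μ ν t < Phi μ ν u := by
  have hu : 0 < u := ht.trans htu
  have hst : 0 < Real.sqrt (1 + t ^ 2) := Real.sqrt_pos.2 (by positivity)
  have hsu : 0 < Real.sqrt (1 + u ^ 2) := Real.sqrt_pos.2 (by positivity)
  have h1 : Real.sqrt (1 + t ^ 2) < Real.sqrt (1 + u ^ 2) :=
    Real.sqrt_lt_sqrt (by positivity) (by nlinarith)
  have h2 : Real.sqrt (1 + t ^ 2) ^ 3 < Real.sqrt (1 + u ^ 2) ^ 3 :=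
    pow_lt_pow_left₀ h1 hst.le (by norm_num)
  have h3 : Real.sqrt (1 + u ^ 2) / u < Real.sqrt (1 + t ^ 2) / t := by
    rw [div_lt_div_iff₀ hu ht]
    refine lt_of_pow_lt_pow_left₀ 2 (by positivity) ?_
    rw [mul_pow, mul_pow, Real.sq_sqrt (by positivity), Real.sq_sqrt (by positivity)]
    nlinarith
  have h4 : (Real.sqrt (1 + u ^ 2) / u) ^ 3 < (Real.sqrt (1 + t ^ 2) / t) ^ 3 :=
    pow_lt_pow_left₀ h3 (by positivity) (by norm_num)
  unfold Phi
  nlinarith

theorem Phi_exists {μ ν : ℝ} (hμ : 0 < μ) (hν : 0 < ν) : ∃ t, 0 < t ∧ Phi μ ν t = 0 := by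
  have h3 : 0 < Real.sqrt 3 := Real.sqrt_pos.2 (by norm_num)
  have h33 : Real.sqrt 3 ^ 2 = 3 := Real.sq_sqrt (by norm_num)
  have h3' : 1 < Real.sqrt 3 := by
    rw [show (1 : ℝ) = Real.sqrt 1 by simp]
    exact Real.sqrt_lt_sqrt (by norm_num) (by norm_num)
  have hle : 1 / Real.sqrt 3 ≤ Real.sqrt 3 := by
    rw [div_le_iff₀ h3]; nlinarith
  have hcont : ContinuousOn (Phi μ ν) (Set.Icc (1 / Real.sqrt 3) (Real.sqrt 3)) := by
    unfold Phi
    have hne : ∀ x ∈ Set.Icc (1 / Real.sqrt 3) (Real.sqrt 3), x ≠ 0 := by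
      intro x hx
      have h0 : 0 < 1 / Real.sqrt 3 := by positivity
      exact (lt_of_lt_of_le h0 hx.1).ne'
    have hc1 : ContinuousOn (fun t : ℝ => Real.sqrt (1 + t ^ 2))
        (Set.Icc (1 / Real.sqrt 3) (Real.sqrt 3)) := by fun_prop
    exact (continuousOn_const.mul (continuousOn_const.sub
      ((hc1.div continuousOn_id hne).pow 3))).sub
      (continuousOn_const.mul (continuousOn_const.sub (hc1.pow 3)))
  have hs1 : Real.sqrt (1 + (1 / Real.sqrt 3) ^ 2) = 2 / Real.sqrt 3 := by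
    rw [Real.sqrt_eq_iff_mul_self_eq (by positivity) (by positivity)]
    field_simp
    nlinarith
  have hs2 : Real.sqrt (1 + Real.sqrt 3 ^ 2) = 2 := by
    rw [h33]
    rw [Real.sqrt_eq_iff_mul_self_eq (by positivity) (by positivity)]
    norm_num
  have ha : Phi μ ν (1 / Real.sqrt 3) ≤ 0 := by
    unfold Phi
    rw [hs1]
    have h4 : 2 / Real.sqrt 3 / (1 / Real.sqrt 3) = 2 := by field_simp
    have h5 : (2 / Real.sqrt 3) ^ 3 ≤ 8 := by
      rw [div_pow, div_le_iff₀ (by positivity)]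
      have : (1 : ℝ) ≤ Real.sqrt 3 ^ 3 := one_le_pow₀ h3'.le
      nlinarith
    rw [h4]
    nlinarith
  have hb : 0 ≤ Phi μ ν (Real.sqrt 3) := by
    unfold Phi
    rw [hs2]
    have h5 : (2 / Real.sqrt 3) ^ 3 ≤ 8 := by
      rw [div_pow, div_le_iff₀ (by positivity)]
      have : (1 : ℝ) ≤ Real.sqrt 3 ^ 3 := one_le_pow₀ h3'.le
      nlinarith
    nlinarith
  obtain ⟨t, ht, ht'⟩ := intermediate_value_Icc hle hcont ⟨ha, hb⟩
  exact ⟨t, lt_of_lt_of_le (by positivity) ht.1, ht'⟩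

theorem Phi_unique {μ ν : ℝ} (hμ : 0 < μ) (hν : 0 < ν) {t u : ℝ} (ht : 0 < t) (hu : 0 < u)
    (h1 : Phi μ ν t = 0) (h2 : Phi μ ν u = 0) : t = u := by
  rcases lt_trichotomy t u with h | h | h
  · have := Phi_strictMono hμ hν ht h; linarith
  · exact h
  · have := Phi_strictMono hμ hν hu h; linarith

theorem im_term (m r : ℝ) (z : ℂ) : ((m : ℂ) * z / (r : ℂ)).im = m * z.im / r := by
  rw [Complex.div_ofReal_im]; simp

theorem re_term (m r : ℝ) (z : ℂ) : ((m : ℂ) * z / (r : ℂ)).re = m * z.re / r := by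
  rw [Complex.div_ofReal_re]; simp

theorem P_sum {m : Fin 4 → ℝ} (h01 : m 0 = m 1) (h23 : m 2 = m 3) (c : ℂ) :
    (∑ j, (m j : ℂ) * P c j) = 0 := by
  rw [Fin.sum_univ_four, P0, P1, P2, P3, h01, h23]; ring

theorem P_inj {t : ℝ} (ht : t ≠ 0) : Function.Injective (P (Complex.I * t)) := by
  have htc : (t : ℂ) ≠ 0 := by exact_mod_cast ht
  have hI : Complex.I * t ≠ 0 := mul_ne_zero Complex.I_ne_zero htc
  apply inj_of <;> simp only [P0, P1, P2, P3]
  · norm_num
  · intro h; have := congrArg Complex.re h; simp at this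
  · intro h; have := congrArg Complex.re h; simp at this
  · intro h; have := congrArg Complex.re h; simp at this
  · intro h; have := congrArg Complex.re h; simp at this
  · intro h
    have : (2 : ℂ) * (Complex.I * t) = 0 := by linear_combination h
    rcases mul_eq_zero.1 this with h | h
    · norm_num at h
    · exact hI h

theorem norm_of (z : ℂ) (x y : ℝ) (hx : z.re ^ 2 = x ^ 2) (hy : z.im ^ 2 = y ^ 2) :
    ‖z‖ = Real.sqrt (x ^ 2 + y ^ 2) := by
  rw [Complex.norm_eq_sqrt_sq_add_sq, hx, hy]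

theorem P_isCC {m : Fin 4 → ℝ} (h01 : m 0 = m 1) (h23 : m 2 = m 3) {t : ℝ} (ht : 0 < t)
    (hPhi : Phi (m 0) (m 2) t = 0) : IsCC m (P (Complex.I * t)) := by
  set s := Real.sqrt (1 + t ^ 2) with hs
  have hspos : 0 < s := Real.sqrt_pos.2 (by positivity)
  have hsc : (s : ℂ) ≠ 0 := by exact_mod_cast hspos.ne'
  have htc : (t : ℂ) ≠ 0 := by exact_mod_cast ht.ne'
  have n1 : ‖(-1 : ℂ) - 1‖ = 2 := by norm_num
  have n1' : ‖(1 : ℂ) - -1‖ = 2 := by norm_num
  have hs' : s = Real.sqrt (1 ^ 2 + t ^ 2) := by rw [hs]; norm_num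
  have n2 : ‖Complex.I * t - 1‖ = s := by
    rw [hs']; exact norm_of _ _ _ (by simp) (by simp)
  have n3 : ‖-(Complex.I * t) - 1‖ = s := by
    rw [hs']; exact norm_of _ _ _ (by simp) (by simp)
  have n4 : ‖Complex.I * t - -1‖ = s := by
    rw [hs']; exact norm_of _ _ _ (by simp) (by simp)
  have n5 : ‖-(Complex.I * t) - -1‖ = s := by
    rw [hs']; exact norm_of _ _ _ (by simp) (by simp)
  have n6 : ‖1 - Complex.I * t‖ = s := by rw [norm_sub_rev, n2]
  have n7 : ‖-1 - Complex.I * t‖ = s := by rw [norm_sub_rev, n4]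
  have n8 : ‖1 - -(Complex.I * t)‖ = s := by rw [norm_sub_rev, n3]
  have n9 : ‖-1 - -(Complex.I * t)‖ = s := by rw [norm_sub_rev, n5]
  have n10 : ‖-(Complex.I * t) - Complex.I * t‖ = 2 * t := by
    have : -(Complex.I * t) - Complex.I * t = -(((2 * t : ℝ) : ℂ) * Complex.I) := by
      push_cast; ring
    rw [this, norm_neg, norm_mul, Complex.norm_I, mul_one, Complex.norm_real, Real.norm_eq_abs,
      abs_of_pos (by positivity)]
  have n11 : ‖Complex.I * t - -(Complex.I * t)‖ = 2 * t := by rw [norm_sub_rev, n10]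
  -- the equation
  have hkey : m 2 * (8 * t ^ 3 - s ^ 3) = m 0 * (8 * t ^ 3 - s ^ 3 * t ^ 3) := by
    unfold Phi at hPhi
    rw [← hs, div_pow] at hPhi
    field_simp at hPhi
    nlinarith
  have hkeyc : (m 2 : ℂ) * (8 * t ^ 3 - s ^ 3) = m 0 * (8 * t ^ 3 - s ^ 3 * t ^ 3) := by
    exact_mod_cast hkey
  refine isCC_of (P_inj ht.ne') (-(m 0) / 4 - 2 * m 2 / s ^ 3) (P_sum h01 h23 _) ?_ ?_ ?_ ?_
  · rw [P0, P1, P2, P3, n1, n2, n3, ← h01, ← h23]
    push_cast
    field_simp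
    ring
  · rw [P0, P1, P2, P3, n1', n4, n5, ← h23]
    push_cast
    field_simp
    ring
  · rw [P0, P1, P2, P3, n6, n7, n10, ← h01, ← h23]
    push_cast
    field_simp
    linear_combination (8 * Complex.I) * hkeyc
  · rw [P0, P1, P2, P3, n8, n9, n11, ← h01]
    push_cast
    field_simp
    linear_combination (-(8 * Complex.I)) * hkeyc

/-- necessary form of a central configuration `1, -1, c, -c` which is not on a line -/
theorem P_form {m : Fin 4 → ℝ} (hm : ∀ i, 0 < m i) (h01 : m 0 = m 1) (h23 : m 2 = m 3) {c : ℂ}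
    (hq : IsCC m (P c)) (hl : ¬ OnLine (P c)) :
    ∃ t : ℝ, 0 < t ∧ Phi (m 0) (m 2) t = 0 ∧ (c = Complex.I * t ∨ c = Complex.I * ((-t : ℝ) : ℂ)) := by
  have hcim : c.im ≠ 0 := by
    intro h
    apply hl
    have hc : ((c.re : ℝ) : ℂ) = c := Complex.ext (by simp) (by simp [h])
    refine ⟨1, 0, fun k => ?_⟩
    rcases fin4 k with rfl | rfl | rfl | rfl
    · exact ⟨1, by rw [P0]; norm_num⟩
    · exact ⟨-1, by rw [P1]; norm_num⟩
    · exact ⟨c.re, by rw [P2, hc]; ring⟩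
    · exact ⟨-c.re, by rw [P3]; push_cast; rw [hc]; ring⟩
  obtain ⟨hinj, lam, hlam⟩ := hq
  have e0 := hlam 0
  have e2 := hlam 2
  rw [P_sum h01 h23, zero_div, sub_zero, sum_erase0, P0, P1, P2, P3] at e0
  rw [P_sum h01 h23, zero_div, sub_zero, sum_erase2, P0, P1, P2, P3] at e2
  have hm2 := hm 2
  have hm0 := hm 0
  -- imaginary part of the first equation
  have i0 := congrArg Complex.im e0
  rw [Complex.add_im, Complex.add_im, im_term, im_term, im_term] at i0
  have hp : 0 < ‖c - 1‖ := norm_pos_iff.2 (by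
    intro h
    exact (by decide : (2 : Fin 4) ≠ 0) (hinj (by rw [P2, P0]; linear_combination h)))
  have hp' : 0 < ‖-c - 1‖ := norm_pos_iff.2 (by
    intro h
    exact (by decide : (3 : Fin 4) ≠ 0) (hinj (by rw [P3, P0]; linear_combination h)))
  have i1 : ‖-c - 1‖ ^ 3 = ‖c - 1‖ ^ 3 := by
    have h1 : (-1 - 1 : ℂ).im = 0 := by simp
    have h2 : (c - 1).im = c.im := by simp
    have h3 : (-c - 1).im = -c.im := by simp
    have h4 : ((lam : ℂ) * 1).im = 0 := by simp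
    rw [h1, h2, h3, h4, ← h23, mul_zero, zero_div, zero_add] at i0
    have h5 : m 2 * c.im * (‖-c - 1‖ ^ 3 - ‖c - 1‖ ^ 3) = 0 := by
      have h6 : m 2 * c.im * (‖-c - 1‖ ^ 3 - ‖c - 1‖ ^ 3)
          = (m 2 * c.im / ‖c - 1‖ ^ 3 + m 2 * -c.im / ‖-c - 1‖ ^ 3)
            * (‖c - 1‖ ^ 3 * ‖-c - 1‖ ^ 3) := by
        field_simp
        ring
      rw [h6, i0, zero_mul]
    rcases mul_eq_zero.1 h5 with h | h
    · rcases mul_eq_zero.1 h with h | h
      · exact absurd h hm2.ne'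
      · exact absurd h hcim
    · linarith
  have i2 : ‖-c - 1‖ = ‖c - 1‖ := by
    exact (pow_left_inj₀ (norm_nonneg _) (norm_nonneg _) (by norm_num)).1 i1
  have i3 : c.re = 0 := by
    rw [Complex.norm_eq_sqrt_sq_add_sq, Complex.norm_eq_sqrt_sq_add_sq] at i2
    have h1 := (Real.sqrt_inj (by positivity) (by positivity)).1 i2
    simp at h1
    nlinarith
  set t := |c.im| with htdef
  have ht : 0 < t := abs_pos.2 hcim
  set s := Real.sqrt (1 + t ^ 2) with hs
  have hspos : 0 < s := Real.sqrt_pos.2 (by positivity)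
  have hs' : s = Real.sqrt (1 ^ 2 + t ^ 2) := by rw [hs]; norm_num
  have ht2 : c.im ^ 2 = t ^ 2 := by rw [htdef, sq_abs]
  have n1 : ‖(-1 : ℂ) - 1‖ = 2 := by norm_num
  have n2 : ‖c - 1‖ = s := by
    rw [hs']; exact norm_of _ _ _ (by simp [i3]) (by simpa using ht2)
  have n3 : ‖-c - 1‖ = s := by rw [i2, n2]
  have n6 : ‖1 - c‖ = s := by rw [norm_sub_rev, n2]
  have n7 : ‖-1 - c‖ = s := by
    rw [← norm_neg, show -(-1 - c) = 1 + c by ring, ← n3, ← norm_neg (-c - 1)]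
    congr 1; ring
  have n10 : ‖-c - c‖ = 2 * t := by
    have h1 : -c - c = -(2 * c) := by ring
    have h2 : ‖c‖ = t := by
      have : c = Complex.I * (c.im : ℂ) := Complex.ext (by simp [i3]) (by simp)
      rw [this, norm_mul, Complex.norm_I, one_mul, Complex.norm_real, Real.norm_eq_abs]
    rw [h1, norm_neg, norm_mul, h2]; norm_num
  -- real part of the first equation
  have r0 := congrArg Complex.re e0
  rw [Complex.add_re, Complex.add_re, re_term, re_term, re_term, n1, n2, n3, ← h01, ← h23] at r0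
  have j2 := congrArg Complex.im e2
  rw [Complex.add_im, Complex.add_im, im_term, im_term, im_term, n6, n7, n10, ← h01, ← h23] at j2
  have a1 : (-1 - 1 : ℂ).re = -2 := by norm_num
  have a2 : (c - 1).re = -1 := by simp [i3]
  have a3 : (-c - 1).re = -1 := by simp [i3]
  have a4 : ((lam : ℂ) * 1).re = lam := by simp
  have b1 : (1 - c).im = -c.im := by simp
  have b2 : (-1 - c).im = -c.im := by simp
  have b3 : (-c - c).im = -(2 * c.im) := by simp; ring
  have b4 : ((lam : ℂ) * c).im = lam * c.im := by simp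
  rw [a1, a2, a3, a4] at r0
  rw [b1, b2, b3, b4, ← r0] at j2
  have k2 : m 2 * (8 * t ^ 3 - s ^ 3) = m 0 * (8 * t ^ 3 - s ^ 3 * t ^ 3) := by
    field_simp at j2
    nlinarith
  refine ⟨t, ht, ?_, ?_⟩
  · unfold Phi
    rw [← hs, div_pow]
    field_simp
    linarith
  · rcases abs_choice c.im with h | h
    · left
      rw [htdef, h]
      exact Complex.ext (by simp [i3]) (by simp)
    · right
      rw [htdef, h]
      exact Complex.ext (by simp [i3]) (by simp)

theorem P_not_onLine {t : ℝ} (ht : t ≠ 0) : ¬ OnLine (P (Complex.I * t)) := by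
  rintro ⟨a, b, h⟩
  obtain ⟨t0, h0⟩ := h 0
  obtain ⟨t1, h1⟩ := h 1
  obtain ⟨t2, h2⟩ := h 2
  obtain ⟨t3, h3⟩ := h 3
  rw [P0] at h0
  rw [P1] at h1
  rw [P2] at h2
  rw [P3] at h3
  have h4 : a * ((t0 - t1 : ℝ) : ℂ) = 2 := by push_cast; linear_combination h1 - h0
  have h5 : 2 * (Complex.I * t) = a * ((t2 - t3 : ℝ) : ℂ) := by
    push_cast; linear_combination h2 - h3
  have h6 : (t0 - t1 : ℝ) ≠ 0 := by
    intro h; rw [h] at h4; simp at h4
  have h7 : ((t0 - t1 : ℝ) : ℂ) * (Complex.I * t) = ((t2 - t3 : ℝ) : ℂ) := by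
    linear_combination ((t0 - t1 : ℝ) : ℂ) / 2 * h5 + ((t2 - t3 : ℝ) : ℂ) / 2 * h4
  have h8 := congrArg Complex.im h7
  rw [Complex.im_ofReal_mul, Complex.ofReal_im] at h8
  simp at h8
  rcases h8 with h | h
  · exact h6 (by linarith)
  · exact ht h

theorem P_similar_ne {t : ℝ} (ht : t ≠ 0) :
    ¬ Similar (P (Complex.I * t)) (P (Complex.I * ((-t : ℝ) : ℂ))) := by
  rintro ⟨a, b, -, h⟩
  have h0 := h 0
  have h1 := h 1
  have h2 := h 2
  rw [P0, P0] at h0
  rw [P1, P1] at h1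
  rw [P2, P2] at h2
  have hb : b = 0 := by linear_combination -(h0 + h1) / 2
  have ha : a = 1 := by rw [hb] at h0; linear_combination -h0
  rw [ha, hb] at h2
  push_cast at h2
  have h3 : Complex.I * (t : ℂ) = 0 := by linear_combination -h2 / 2
  rcases mul_eq_zero.1 h3 with h | h
  · exact Complex.I_ne_zero h
  · exact ht (by exact_mod_cast h)

end FourBody
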