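import Pool.Agent.H39.FB.Basic

set_option autoImplicit false

namespace FourBody

open Finset

/-- permutations preserving a colouring of the four labels by two colours -/
def blk (B : Fin 4 → Bool) : Subgroup (Equiv.Perm (Fin 4)) where
  carrier := {σ | ∀ i, B (σ i) = B i}
  mul_mem' := by
    intro σ τ hσ hτ i
    rw [Equiv.Perm.mul_apply, hσ, hτ]
  one_mem' := fun i => rfl
  inv_mem' := by
    intro σ hσ i
    have h := hσ (σ⁻¹ i)
    have h' : σ (σ⁻¹ i) = i := by simp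
    rw [h'] at h
    exact h.symm

theorem mem_blk {B : Fin 4 → Bool} {σ : Equiv.Perm (Fin 4)} :
    σ ∈ blk B ↔ ∀ i, B (σ i) = B i := Iff.rfl

instance (B : Fin 4 → Bool) : DecidablePred (· ∈ blk B) := fun σ =>
  inferInstanceAs (Decidable (∀ i, B (σ i) = B i))

/-- two pairs -/
def B22 : Fin 4 → Bool := ![false, false, true, true]

/-- three and one -/
def B31 : Fin 4 → Bool := ![false, false, false, true]

theorem card_B22 : Fintype.card (blk B22) = 4 := by decide +kernel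

theorem card_B31 : Fintype.card (blk B31) = 6 := by decide +kernel

theorem cases_B22 : ∀ h : Equiv.Perm (Fin 4), (∀ i, B22 (h i) = B22 i) → h ≠ 1 →
    (h 0 = 1 ∧ h 1 = 0 ∧ h 2 = 2 ∧ h 3 = 3) ∨ (h 0 = 0 ∧ h 1 = 1 ∧ h 2 = 3 ∧ h 3 = 2) ∨
      (h 0 = 1 ∧ h 1 = 0 ∧ h 2 = 3 ∧ h 3 = 2) := by decide +kernel

theorem cases_B31 : ∀ h : Equiv.Perm (Fin 4), (∀ i, B31 (h i) = B31 i) → h ≠ 1 →
    (h 0 = 1 ∧ h 1 = 0 ∧ h 2 = 2 ∧ h 3 = 3) ∨ (h 0 = 0 ∧ h 1 = 2 ∧ h 2 = 1 ∧ h 3 = 3) ∨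
      (h 0 = 2 ∧ h 1 = 1 ∧ h 2 = 0 ∧ h 3 = 3) ∨ (h 0 = 1 ∧ h 1 = 2 ∧ h 2 = 0 ∧ h 3 = 3) ∨
      (h 0 = 2 ∧ h 1 = 0 ∧ h 2 = 1 ∧ h 3 = 3) := by decide +kernel

/-- a transposition fixes no class -/
theorem no_swap {q : Fin 4 → ℂ} (hinj : Function.Injective q) {i j k l : Fin 4} (hij : i ≠ j)
    (hkl : k ≠ l) {a b : ℂ} (h1 : q j = a * q i + b) (h3 : q k = a * q k + b)
    (h4 : q l = a * q l + b) : False := by
  have h5 : (a - 1) * (q k - q l) = 0 := by linear_combination h4 - h3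
  have h6 : q k - q l ≠ 0 := sub_ne_zero.2 fun h => hkl (hinj h)
  have h7 : a = 1 := by
    rcases mul_eq_zero.1 h5 with h | h
    · exact sub_eq_zero.1 h
    · exact absurd h h6
  have h8 : b = 0 := by rw [h7] at h3; linear_combination -h3
  rw [h7, h8] at h1
  exact hij (hinj (by rw [h1]; ring)).symm

theorem sum_erase0 (f : Fin 4 → ℂ) : ∑ j ∈ univ.erase (0 : Fin 4), f j = f 1 + f 2 + f 3 := by
  have : (univ.erase (0 : Fin 4)) = {1, 2, 3} := by decide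
  rw [this]; simp [add_assoc]

theorem sum_erase1 (f : Fin 4 → ℂ) : ∑ j ∈ univ.erase (1 : Fin 4), f j = f 0 + f 2 + f 3 := by
  have : (univ.erase (1 : Fin 4)) = {0, 2, 3} := by decide
  rw [this]; simp [add_assoc]

theorem sum_erase2 (f : Fin 4 → ℂ) : ∑ j ∈ univ.erase (2 : Fin 4), f j = f 0 + f 1 + f 3 := by
  have : (univ.erase (2 : Fin 4)) = {0, 1, 3} := by decide
  rw [this]; simp [add_assoc]

theorem sum_erase3 (f : Fin 4 → ℂ) : ∑ j ∈ univ.erase (3 : Fin 4), f j = f 0 + f 1 + f 2 := by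
  have : (univ.erase (3 : Fin 4)) = {0, 1, 2} := by decide
  rw [this]; simp [add_assoc]

/-! ### the equilateral triangle with a body at the centre -/

/-- the configuration `1, w, w ^ 2, 0` -/
def E (w : ℂ) : Fin 4 → ℂ := ![1, w, w ^ 2, 0]

theorem E_ne {w : ℂ} (hw : w ^ 2 + w + 1 = 0) : w ≠ 1 ∧ w ^ 2 ≠ 1 ∧ w ≠ 0 ∧ w ^ 2 ≠ w := by
  have h1 : w ≠ 1 := by rintro rfl; norm_num at hw
  have h0 : w ≠ 0 := by rintro rfl; norm_num at hw
  refine ⟨h1, ?_, h0, ?_⟩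
  · intro h
    have h2 : w = -2 := by linear_combination hw - h
    rw [h2] at hw; norm_num at hw
  · intro h
    have h2 : w * (w - 1) = 0 := by linear_combination h
    rcases mul_eq_zero.1 h2 with h3 | h3
    · exact h0 h3
    · exact h1 (sub_eq_zero.1 h3)

theorem fin4 (i : Fin 4) : i = 0 ∨ i = 1 ∨ i = 2 ∨ i = 3 := by
  revert i; decide

theorem isCC_of {m : Fin 4 → ℝ} {q : Fin 4 → ℂ} (hinj : Function.Injective q) (lam : ℝ)
    (hc : (∑ j, (m j : ℂ) * q j) = 0)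
    (e0 : (m 1 : ℂ) * (q 1 - q 0) / ((‖q 1 - q 0‖ ^ 3 : ℝ) : ℂ)
      + (m 2 : ℂ) * (q 2 - q 0) / ((‖q 2 - q 0‖ ^ 3 : ℝ) : ℂ)
      + (m 3 : ℂ) * (q 3 - q 0) / ((‖q 3 - q 0‖ ^ 3 : ℝ) : ℂ) = lam * q 0)
    (e1 : (m 0 : ℂ) * (q 0 - q 1) / ((‖q 0 - q 1‖ ^ 3 : ℝ) : ℂ)
      + (m 2 : ℂ) * (q 2 - q 1) / ((‖q 2 - q 1‖ ^ 3 : ℝ) : ℂ)
      + (m 3 : ℂ) * (q 3 - q 1) / ((‖q 3 - q 1‖ ^ 3 : ℝ) : ℂ) = lam * q 1)
    (e2 : (m 0 : ℂ) * (q 0 - q 2) / ((‖q 0 - q 2‖ ^ 3 : ℝ) : ℂ)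
      + (m 1 : ℂ) * (q 1 - q 2) / ((‖q 1 - q 2‖ ^ 3 : ℝ) : ℂ)
      + (m 3 : ℂ) * (q 3 - q 2) / ((‖q 3 - q 2‖ ^ 3 : ℝ) : ℂ) = lam * q 2)
    (e3 : (m 0 : ℂ) * (q 0 - q 3) / ((‖q 0 - q 3‖ ^ 3 : ℝ) : ℂ)
      + (m 1 : ℂ) * (q 1 - q 3) / ((‖q 1 - q 3‖ ^ 3 : ℝ) : ℂ)
      + (m 2 : ℂ) * (q 2 - q 3) / ((‖q 2 - q 3‖ ^ 3 : ℝ) : ℂ) = lam * q 3) : IsCC m q := by
  refine ⟨hinj, lam, fun i => ?_⟩
  rw [hc, zero_div, sub_zero]
  rcases fin4 i with rfl | rfl | rfl | rfl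
  · rw [sum_erase0]; exact e0
  · rw [sum_erase1]; exact e1
  · rw [sum_erase2]; exact e2
  · rw [sum_erase3]; exact e3

theorem inj_of {q : Fin 4 → ℂ} (h01 : q 0 ≠ q 1) (h02 : q 0 ≠ q 2) (h03 : q 0 ≠ q 3)
    (h12 : q 1 ≠ q 2) (h13 : q 1 ≠ q 3) (h23 : q 2 ≠ q 3) : Function.Injective q := by
  intro i j hij
  rcases fin4 i with rfl | rfl | rfl | rfl <;> rcases fin4 j with rfl | rfl | rfl | rfl <;>
    first
      | rfl
      | exact absurd hij h01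
      | exact absurd hij.symm h01
      | exact absurd hij h02
      | exact absurd hij.symm h02
      | exact absurd hij h03
      | exact absurd hij.symm h03
      | exact absurd hij h12
      | exact absurd hij.symm h12
      | exact absurd hij h13
      | exact absurd hij.symm h13
      | exact absurd hij h23
      | exact absurd hij.symm h23

theorem E0 (w : ℂ) : E w 0 = 1 := rfl
theorem E1 (w : ℂ) : E w 1 = w := rfl
theorem E2 (w : ℂ) : E w 2 = w ^ 2 := rfl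
theorem E3 (w : ℂ) : E w 3 = 0 := rfl

theorem E_inj {w : ℂ} (hw : w ^ 2 + w + 1 = 0) : Function.Injective (E w) := by
  obtain ⟨h1, h2, h3, h4⟩ := E_ne hw
  have h5 : w ^ 2 ≠ 0 := pow_ne_zero 2 h3
  apply inj_of <;> simp only [E0, E1, E2, E3]
  · exact h1.symm
  · exact h2.symm
  · exact one_ne_zero
  · exact h4.symm
  · exact h3
  · exact h5

theorem E_isCC {m : Fin 4 → ℝ} (h01 : m 0 = m 1) (h12 : m 1 = m 2) {w : ℂ}
    (hw : w ^ 2 + w + 1 = 0) : IsCC m (E w) := by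
  obtain ⟨h1, h2, h3, h4⟩ := E_ne hw
  have hw3 : w ^ 3 = 1 := by linear_combination (w - 1) * hw
  have hn : ‖w‖ = 1 := by
    have : ‖w‖ ^ 3 = 1 := by rw [← norm_pow, hw3, norm_one]
    exact (pow_eq_one_iff_of_nonneg (norm_nonneg _) (by norm_num)).1 this
  have hd : ‖w - 1‖ ≠ 0 := norm_ne_zero_iff.2 (sub_ne_zero.2 h1)
  have n10 : ‖1 - w‖ = ‖w - 1‖ := norm_sub_rev _ _
  have n12 : ‖w ^ 2 - w‖ = ‖w - 1‖ := by
    have : w ^ 2 - w = w * (w - 1) := by ring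
    rw [this, norm_mul, hn, one_mul]
  have n21 : ‖w - w ^ 2‖ = ‖w - 1‖ := by rw [norm_sub_rev, n12]
  have n20 : ‖1 - w ^ 2‖ = ‖w - 1‖ := by
    have : 1 - w ^ 2 = w ^ 2 * (w - 1) := by linear_combination -hw3
    rw [this, norm_mul, norm_pow, hn, one_pow, one_mul]
  have n02 : ‖w ^ 2 - 1‖ = ‖w - 1‖ := by rw [norm_sub_rev, n20]
  have hw2 : ‖w ^ 2‖ = 1 := by rw [norm_pow, hn, one_pow]
  have n0 : ‖(0 : ℂ) - 1‖ = 1 := by simp
  have n1 : ‖(1 : ℂ) - 0‖ = 1 := by simp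
  have n3 : ‖0 - w‖ = 1 := by simp [hn]
  have n4 : ‖w - 0‖ = 1 := by simp [hn]
  have n5 : ‖0 - w ^ 2‖ = 1 := by simp [hn]
  have n6 : ‖w ^ 2 - 0‖ = 1 := by simp [hn]
  have hc : (∑ j, (m j : ℂ) * E w j) = 0 := by
    rw [Fin.sum_univ_four]
    simp only [E0, E1, E2, E3]
    rw [h01, ← h12]
    linear_combination (m 1 : ℂ) * hw
  have hdc : ((‖w - 1‖ : ℝ) : ℂ) ≠ 0 := by exact_mod_cast hd
  refine isCC_of (E_inj hw) (-3 * m 0 / ‖w - 1‖ ^ 3 - m 3) hc ?_ ?_ ?_ ?_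
  · rw [E0, E1, E2, E3, n02, n0, ← h12, ← h01]
    push_cast
    field_simp
    linear_combination (m 0 : ℂ) * hw
  · rw [E0, E1, E2, E3, n12, n10, n3, ← h12, ← h01]
    push_cast
    field_simp
    linear_combination (m 0 : ℂ) * hw
  · rw [E0, E1, E2, E3, n21, n20, n5, ← h01]
    push_cast
    field_simp
    linear_combination (m 0 : ℂ) * hw
  · rw [E0, E1, E2, E3, n1, n4, n6, ← h12, ← h01]
    push_cast
    field_simp
    linear_combination ((m 0 : ℂ) * (‖w - 1‖ : ℂ) ^ 3) * hw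

theorem E_not_onLine {w : ℂ} (hw : w ^ 2 + w + 1 = 0) : ¬ OnLine (E w) := by
  rintro ⟨a, b, h⟩
  obtain ⟨t0, h0⟩ := h 0
  obtain ⟨t1, h1⟩ := h 1
  obtain ⟨t3, h3⟩ := h 3
  simp only [E, Matrix.cons_val] at h0 h1 h3
  have h4 : a * ((t0 - t3 : ℝ) : ℂ) = 1 := by push_cast; linear_combination h3 - h0
  have h5 : w = a * ((t1 - t3 : ℝ) : ℂ) := by push_cast; linear_combination h1 - h3
  have h6 : t0 - t3 ≠ 0 := by
    intro h; rw [h] at h4; simp at h4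
  have h7 : w = (((t1 - t3) / (t0 - t3) : ℝ) : ℂ) := by
    have h8 : ((t0 - t3 : ℝ) : ℂ) ≠ 0 := by exact_mod_cast h6
    push_cast at h8 h4 h5 ⊢
    rw [eq_div_iff h8, h5]
    linear_combination ((t1 : ℂ) - t3) * h4
  set r : ℝ := (t1 - t3) / (t0 - t3) with hr
  rw [h7] at hw
  have h9 : r ^ 2 + r + 1 = 0 := by exact_mod_cast hw
  nlinarith [sq_nonneg (r + 1 / 2)]

theorem E_similar_ne {w : ℂ} (hw : w ^ 2 + w + 1 = 0) : ¬ Similar (E w) (E (w ^ 2)) := by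
  rintro ⟨a, b, -, h⟩
  have h0 := h 0
  have h1 := h 1
  have h3 := h 3
  simp only [E, Matrix.cons_val] at h0 h1 h3
  have hb : b = 0 := by linear_combination -h3
  have ha : a = 1 := by rw [hb] at h0; linear_combination -h0
  rw [ha, hb] at h1
  exact (E_ne hw).2.2.2 (by linear_combination h1)

theorem exists_omega : ∃ w : ℂ, w ^ 2 + w + 1 = 0 := by
  refine ⟨⟨-1 / 2, Real.sqrt 3 / 2⟩, ?_⟩
  have h3 : Real.sqrt 3 * Real.sqrt 3 = 3 := Real.mul_self_sqrt (by norm_num)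
  apply Complex.ext
  · simp [pow_two, Complex.mul_re]
    nlinarith
  · simp [pow_two, Complex.mul_im]
    ring

/-- a configuration similar to its cyclic relabelling -/
theorem cyc_similar {q : Fin 4 → ℂ} (hinj : Function.Injective q) {i j k : Fin 4}
    (hij : i ≠ j) (hi3 : i ≠ 3) {a b : ℂ}
    (h0 : q j = a * q i + b) (h1 : q k = a * q j + b) (h2 : q i = a * q k + b)
    (h3 : q 3 = a * q 3 + b) : a ^ 2 + a + 1 = 0 := by
  have w0 : q i - q 3 ≠ 0 := sub_ne_zero.2 fun h => hi3 (hinj h)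
  have e1 : q j - q 3 = a * (q i - q 3) := by linear_combination h0 - h3
  have e2 : q k - q 3 = a ^ 2 * (q i - q 3) := by linear_combination h1 - h3 + a * e1
  have e3 : (a ^ 3 - 1) * (q i - q 3) = 0 := by linear_combination -h2 + h3 - a * e2
  have e4 : a ^ 3 - 1 = 0 := by
    rcases mul_eq_zero.1 e3 with h | h
    · exact h
    · exact absurd h w0
  have e5 : a ≠ 1 := by
    rintro rfl
    exact hij (hinj (by linear_combination -e1))
  have e6 : (a - 1) * (a ^ 2 + a + 1) = 0 := by linear_combination e4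
  rcases mul_eq_zero.1 e6 with h | h
  · exact absurd (sub_eq_zero.1 h) e5
  · exact h

end FourBody
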