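import Pool.Agent.H39.FB.Four

set_option autoImplicit false

namespace FourBody

open Finset

/-- The permutations of the four bodies which preserve the masses. -/
abbrev MassSym (m : Fin 4 → ℝ) : Type := {σ : Equiv.Perm (Fin 4) // ∀ i, m (σ i) = m i}

theorem massSym_relabel (m : Fin 4 → ℝ) (τ : Equiv.Perm (Fin 4)) :
    Nat.card (MassSym (m ∘ τ)) = Nat.card (MassSym m) := by
  refine Nat.card_congr ⟨fun σ => ⟨τ * σ.1 * τ⁻¹, fun i => ?_⟩,
    fun σ => ⟨τ⁻¹ * σ.1 * τ, fun i => ?_⟩, fun σ => ?_, fun σ => ?_⟩
  · have h := σ.2 (τ⁻¹ i)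
    simpa using h
  · have h := σ.2 (τ i)
    simpa using h
  · apply Subtype.ext; simp [mul_assoc]
  · apply Subtype.ext; simp [mul_assoc]

/-- the number of permutations preserving a pattern -/
def patCard (B : Fin 4 → Fin 4) : ℕ :=
  Fintype.card {σ : Equiv.Perm (Fin 4) // ∀ i, B (σ i) = B i}

theorem card_pattern {m : Fin 4 → ℝ} {B : Fin 4 → Fin 4} (h : ∀ i j, m i = m j ↔ B i = B j) :
    Nat.card (MassSym m) = patCard B := by
  rw [patCard, ← Nat.card_eq_fintype_card]
  refine Nat.card_congr (Equiv.subtypeEquivRight fun σ => ?_)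
  exact forall_congr' fun i => h _ _

theorem pc0 : patCard ![0, 1, 2, 3] = 1 := by decide +kernel
theorem pc1 : patCard ![0, 0, 1, 2] = 2 := by decide +kernel
theorem pc2 : patCard ![0, 1, 1, 2] = 2 := by decide +kernel
theorem pc3 : patCard ![0, 1, 2, 2] = 2 := by decide +kernel
theorem pc4 : patCard ![0, 0, 1, 1] = 4 := by decide +kernel
theorem pc5 : patCard ![0, 0, 0, 1] = 6 := by decide +kernel
theorem pc6 : patCard ![0, 1, 1, 1] = 6 := by decide +kernel
theorem pc7 : patCard ![0, 0, 0, 0] = 24 := by decide +kernel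

theorem unify {m : Fin 4 → ℝ} (hm : ∀ i, 0 < m i) :
    (centralClasses m).Infinite ∨
      (centralClasses m).ncard ≡ 2 [MOD Nat.card (MassSym m)] := by
  by_cases hinf : (centralClasses m).Infinite
  · exact Or.inl hinf
  right
  set τ := Tuple.sort m with hτ
  have hmono : Monotone (m ∘ τ) := Tuple.monotone_sort m
  rw [← massSym_relabel m τ, ← relabel_ncard m τ]
  rw [Set.not_infinite] at hinf
  have hfin := relabel_finite τ hinf
  have hm' : ∀ i, 0 < (m ∘ τ) i := fun i => hm (τ i)
  clear_value τ
  clear hτ
  generalize m ∘ τ = w at *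
  have h01 : w 0 ≤ w 1 := hmono (by decide)
  have h12 : w 1 ≤ w 2 := hmono (by decide)
  have h23 : w 2 ≤ w 3 := hmono (by decide)
  rcases congruences hm' with h | ⟨c1, -, c2, c3⟩
  · exact absurd hfin h
  rcases h01.eq_or_lt with e01 | e01 <;> rcases h12.eq_or_lt with e12 | e12 <;>
    rcases h23.eq_or_lt with e23 | e23
  · -- all equal
    have hp : ∀ i j, w i = w j ↔ (![0, 0, 0, 0] : Fin 4 → Fin 4) i
        = (![0, 0, 0, 0] : Fin 4 → Fin 4) j := by
      intro i j
      rcases fin4 i with rfl | rfl | rfl | rfl <;> rcases fin4 j with rfl | rfl | rfl | rfl <;>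
        first
          | exact iff_of_true (by linarith) (by decide)
          | exact iff_of_false (fun h => by linarith) (by decide)
    rw [card_pattern hp, pc7]
    obtain ⟨g1, g2⟩ := card_total hm' hfin
    have g3 := four_equal hm' e01 e12 e23 g1
    have g4 := c3 ⟨1, e01, e12⟩
    change _ % 24 = 2 % 24
    omega
  · have hp : ∀ i j, w i = w j ↔ (![0, 0, 0, 1] : Fin 4 → Fin 4) i
        = (![0, 0, 0, 1] : Fin 4 → Fin 4) j := by
      intro i j
      rcases fin4 i with rfl | rfl | rfl | rfl <;> rcases fin4 j with rfl | rfl | rfl | rfl <;>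
        first
          | exact iff_of_true (by linarith) (by decide)
          | exact iff_of_false (fun h => by linarith) (by decide)
    rw [card_pattern hp, pc5]
    exact c3 ⟨1, e01, e12⟩
  · have hp : ∀ i j, w i = w j ↔ (![0, 0, 1, 1] : Fin 4 → Fin 4) i
        = (![0, 0, 1, 1] : Fin 4 → Fin 4) j := by
      intro i j
      rcases fin4 i with rfl | rfl | rfl | rfl <;> rcases fin4 j with rfl | rfl | rfl | rfl <;>
        first
          | exact iff_of_true (by linarith) (by decide)
          | exact iff_of_false (fun h => by linarith) (by decide)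
    rw [card_pattern hp, pc4]
    exact c2 ⟨1, e01, e23⟩
  · have hp : ∀ i j, w i = w j ↔ (![0, 0, 1, 2] : Fin 4 → Fin 4) i
        = (![0, 0, 1, 2] : Fin 4 → Fin 4) j := by
      intro i j
      rcases fin4 i with rfl | rfl | rfl | rfl <;> rcases fin4 j with rfl | rfl | rfl | rfl <;>
        first
          | exact iff_of_true (by linarith) (by decide)
          | exact iff_of_false (fun h => by linarith) (by decide)
    rw [card_pattern hp, pc1]
    change _ % 2 = 2 % 2
    rw [Nat.even_iff] at c1
    omega
  · have hp : ∀ i j, w i = w j ↔ (![0, 1, 1, 1] : Fin 4 → Fin 4) i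
        = (![0, 1, 1, 1] : Fin 4 → Fin 4) j := by
      intro i j
      rcases fin4 i with rfl | rfl | rfl | rfl <;> rcases fin4 j with rfl | rfl | rfl | rfl <;>
        first
          | exact iff_of_true (by linarith) (by decide)
          | exact iff_of_false (fun h => by linarith) (by decide)
    rw [card_pattern hp, pc6]
    refine c3 ⟨Equiv.swap 0 3, ?_, ?_⟩
    · rw [show (Equiv.swap (0 : Fin 4) 3) 0 = 3 by decide,
        show (Equiv.swap (0 : Fin 4) 3) 1 = 1 by decide]
      exact (e12.trans e23).symm
    · rw [show (Equiv.swap (0 : Fin 4) 3) 1 = 1 by decide,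
        show (Equiv.swap (0 : Fin 4) 3) 2 = 2 by decide]
      exact e12
  · have hp : ∀ i j, w i = w j ↔ (![0, 1, 1, 2] : Fin 4 → Fin 4) i
        = (![0, 1, 1, 2] : Fin 4 → Fin 4) j := by
      intro i j
      rcases fin4 i with rfl | rfl | rfl | rfl <;> rcases fin4 j with rfl | rfl | rfl | rfl <;>
        first
          | exact iff_of_true (by linarith) (by decide)
          | exact iff_of_false (fun h => by linarith) (by decide)
    rw [card_pattern hp, pc2]
    change _ % 2 = 2 % 2
    rw [Nat.even_iff] at c1
    omega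
  · have hp : ∀ i j, w i = w j ↔ (![0, 1, 2, 2] : Fin 4 → Fin 4) i
        = (![0, 1, 2, 2] : Fin 4 → Fin 4) j := by
      intro i j
      rcases fin4 i with rfl | rfl | rfl | rfl <;> rcases fin4 j with rfl | rfl | rfl | rfl <;>
        first
          | exact iff_of_true (by linarith) (by decide)
          | exact iff_of_false (fun h => by linarith) (by decide)
    rw [card_pattern hp, pc3]
    change _ % 2 = 2 % 2
    rw [Nat.even_iff] at c1
    omega
  · have hp : ∀ i j, w i = w j ↔ (![0, 1, 2, 3] : Fin 4 → Fin 4) i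
        = (![0, 1, 2, 3] : Fin 4 → Fin 4) j := by
      intro i j
      rcases fin4 i with rfl | rfl | rfl | rfl <;> rcases fin4 j with rfl | rfl | rfl | rfl <;>
        first
          | exact iff_of_true (by linarith) (by decide)
          | exact iff_of_false (fun h => by linarith) (by decide)
    rw [card_pattern hp, pc0]
    exact Nat.modEq_one

end FourBody
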